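import Pool.Agent.KS6_91.CN.Tot

/-!
# A group for every affine and every projective scheme
-/

set_option autoImplicit false

namespace Pool.Agent.KS6_91.CN

open Finset MvPolynomial Pool.Agent.KS6_3.B2

section Rename

lemma card_aff_rename {ι : Type} {n : ℕ} (e : ι ≃ Fin n) (G : Finset (MvPolynomial ι ℤ))
    (κ : Type) [Field κ] :
    Nat.card (affPoints (G.image (rename e)) κ) =
      Nat.card {v : ι → κ // ∀ F ∈ G, aeval v F = 0} := by
  apply Nat.card_congr
  refine Equiv.subtypeEquiv (Equiv.arrowCongr e.symm (Equiv.refl κ)) fun x => ?_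
  have h0 : x ∈ affPoints (G.image (rename e)) κ ↔ ∀ F ∈ G.image (rename e), aeval x F = 0 :=
    Iff.rfl
  rw [h0, Finset.forall_mem_image]
  refine forall₂_congr fun F _ => ?_
  rw [aeval_rename]
  rfl

end Rename

section Strata

variable {κ : Type} [Field κ]

/-- The disjoint union of the affine spaces of the dimensions `0, …, k - 1`. -/
def Ek (k : ℕ) (κ : Type) [Field κ] : Type :=
  {v : (Fin k → κ) × (Fin k → κ) // (∀ i j, i ≠ j → v.1 i * v.1 j = 0) ∧ ∑ i, v.1 i = 1 ∧
    ∀ i j, i ≤ j → v.1 i * v.2 j = 0}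

lemma card_Ek [Finite κ] (k : ℕ) : Nat.card (Ek k κ) = ∑ i ∈ range k, Nat.card κ ^ i := by
  classical
  rcases Nat.eq_zero_or_pos k with rfl | hk
  · have : IsEmpty (Ek 0 κ) := ⟨fun v => by
      have h : ∑ i : Fin 0, v.1.1 i = 1 := v.2.2.1
      simp at h⟩
    rw [Nat.card_of_isEmpty, range_zero, sum_empty]
  have : Nonempty (Fin k) := ⟨⟨0, hk⟩⟩
  have hsingle : ∀ e : Fin k → κ, (∀ i j, i ≠ j → e i * e j = 0) → ∑ i, e i = 1 →
      ∃ i, e = Pi.single i 1 := by
    intro e h1 h2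
    obtain ⟨i, hi⟩ : ∃ i, e i ≠ 0 := by
      by_contra h
      push Not at h
      rw [sum_congr rfl fun i _ => h i, sum_const_zero] at h2
      exact zero_ne_one h2
    have h3 : ∀ j, j ≠ i → e j = 0 := fun j hj =>
      (mul_eq_zero.mp (h1 j i hj)).resolve_right hi
    refine ⟨i, ?_⟩
    have h4 : e i = 1 := by
      rw [← h2, Fintype.sum_eq_single i h3]
    funext j
    by_cases hj : j = i
    · subst hj
      rw [h4, Pi.single_eq_same]
    · rw [h3 j hj, Pi.single_eq_of_ne hj]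
  choose! idx hidx using hsingle
  have hinj : ∀ i j : Fin k, (Pi.single i 1 : Fin k → κ) = Pi.single j 1 → i = j := by
    intro i j h
    by_contra hne
    have h1 := congrFun h i
    rw [Pi.single_eq_same, Pi.single_eq_of_ne hne] at h1
    exact one_ne_zero h1
  have E : Ek k κ ≃ Σ i : Fin k, ({j : Fin k // j < i} → κ) :=
    { toFun := fun v => ⟨idx v.1.1, fun j => v.1.2 j.1⟩
      invFun := fun w => ⟨(Pi.single w.1 1, fun j => if hj : j < w.1 then w.2 ⟨j, hj⟩ else 0), by
          intro i j hij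
          dsimp only
          by_cases hi : i = w.1
          · have hj : j ≠ w.1 := fun h => hij (hi.trans h.symm)
            rw [Pi.single_eq_of_ne hj, mul_zero]
          · rw [Pi.single_eq_of_ne hi, zero_mul], by
          dsimp only
          rw [Fintype.sum_eq_single w.1 fun j hj => Pi.single_eq_of_ne hj _, Pi.single_eq_same], by
          intro i j hij
          dsimp only
          by_cases hi : i = w.1
          · have : ¬ j < w.1 := not_lt.mpr (hi ▸ hij)
            simp only [dif_neg this, mul_zero]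
          · rw [Pi.single_eq_of_ne hi, zero_mul]⟩
      left_inv := fun v => by
        have h1 := hidx v.1.1 v.2.1 v.2.2.1
        apply Subtype.ext
        refine Prod.ext h1.symm (funext fun j => ?_)
        simp only
        by_cases hj : j < idx v.1.1
        · rw [dif_pos hj]
        · rw [dif_neg hj]
          have h2 := v.2.2.2 (idx v.1.1) j (not_lt.mp hj)
          have h3 : v.1.1 (idx v.1.1) = 1 := by
            have h4 := congrFun h1 (idx v.1.1)
            rwa [Pi.single_eq_same] at h4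
          rw [h3, one_mul] at h2
          exact h2.symm
      right_inv := fun w => by
        obtain ⟨i, u⟩ := w
        have h1 : idx (Pi.single i 1 : Fin k → κ) = i := by
          refine (hinj _ _ (hidx _ ?_ ?_)).symm
          · intro a b hab
            by_cases ha : a = i
            · rw [Pi.single_eq_of_ne (fun h => hab (ha.trans h.symm)), mul_zero]
            · rw [Pi.single_eq_of_ne ha, zero_mul]
          · rw [Fintype.sum_eq_single i fun j hj => Pi.single_eq_of_ne hj _, Pi.single_eq_same]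
        refine Sigma.ext h1 ?_
        simp only
        refine Function.hfunext (by rw [h1]) fun j j' hjj => ?_
        have hj' : (j : Fin k) = j' := by
          have h2 : ∀ i i' : Fin k, i = i' → ∀ (j : {j : Fin k // j < i}) (j' : {j : Fin k // j < i'}),
              HEq j j' → (j : Fin k) = j' := by
            rintro i _ rfl j j' h
            rw [eq_of_heq h]
          exact h2 _ _ h1 j j' hjj
        rw [hj', dif_pos j'.2] }
  have : Fintype κ := Fintype.ofFinite κ
  rw [Nat.card_congr E, Nat.card_sigma, ← Fin.sum_univ_eq_sum_range]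
  refine sum_congr rfl fun i _ => ?_
  rw [Nat.card_fun, Nat.card_eq_fintype_card (α := {j : Fin k // j < i}), Fintype.card_subtype]
  congr 1
  rw [show (univ.filter fun j : Fin k => j < i) = Finset.Iio i from by ext; simp, Fin.card_Iio]

/-- The equations of `X × Ek`. -/
noncomputable def eqsE {N : ℕ} (G : Finset (MvPolynomial (Fin N) ℤ)) (k : ℕ) :
    Finset (MvPolynomial (Fin N ⊕ (Fin k ⊕ Fin k)) ℤ) := by
  classical
  exact G.image (rename Sum.inl) ∪ (univ.image fun ij : Fin k × Fin k =>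
    if ij.1 = ij.2 then 0 else X (Sum.inr (Sum.inl ij.1)) * X (Sum.inr (Sum.inl ij.2))) ∪
    {∑ i, X (Sum.inr (Sum.inl i)) - 1} ∪ (univ.image fun ij : Fin k × Fin k =>
      if ij.1 ≤ ij.2 then X (Sum.inr (Sum.inl ij.1)) * X (Sum.inr (Sum.inr ij.2)) else 0)

lemma mem_eqsE {N : ℕ} (G : Finset (MvPolynomial (Fin N) ℤ)) (k : ℕ)
    (v : Fin N ⊕ (Fin k ⊕ Fin k) → κ) :
    (∀ F ∈ eqsE G k, aeval v F = 0) ↔ (∀ F ∈ G, aeval (fun i => v (Sum.inl i)) F = 0) ∧
      (∀ i j, i ≠ j → v (Sum.inr (Sum.inl i)) * v (Sum.inr (Sum.inl j)) = 0) ∧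
        ∑ i, v (Sum.inr (Sum.inl i)) = 1 ∧
          ∀ i j, i ≤ j → v (Sum.inr (Sum.inl i)) * v (Sum.inr (Sum.inr j)) = 0 := by
  classical
  simp only [eqsE, forall_mem_union, forall_mem_image, mem_singleton, forall_eq]
  have h1 : (∀ F ∈ G, aeval v (rename (Sum.inl : Fin N → Fin N ⊕ (Fin k ⊕ Fin k)) F) = 0) ↔
      ∀ F ∈ G, aeval (fun i => v (Sum.inl i)) F = 0 := by
    refine forall₂_congr fun F _ => ?_
    rw [aeval_rename]
    rfl
  have h2 : (∀ ij : Fin k × Fin k, ij ∈ (univ : Finset (Fin k × Fin k)) → aeval v (if ij.1 = ij.2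
      then (0 : MvPolynomial (Fin N ⊕ (Fin k ⊕ Fin k)) ℤ) else
        X (Sum.inr (Sum.inl ij.1)) * X (Sum.inr (Sum.inl ij.2))) = 0) ↔
      ∀ i j, i ≠ j → v (Sum.inr (Sum.inl i)) * v (Sum.inr (Sum.inl j)) = 0 := by
    constructor
    · intro h i j hij
      have h3 := h (i, j) (mem_univ _)
      rwa [if_neg hij, map_mul, aeval_X, aeval_X] at h3
    · rintro h ⟨i, j⟩ -
      simp only
      split_ifs with hij
      · exact map_zero _
      · rw [map_mul, aeval_X, aeval_X]
        exact h i j hij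
  have h3 : (∀ ij : Fin k × Fin k, ij ∈ (univ : Finset (Fin k × Fin k)) → aeval v (if ij.1 ≤ ij.2
      then X (Sum.inr (Sum.inl ij.1)) * X (Sum.inr (Sum.inr ij.2)) else
        (0 : MvPolynomial (Fin N ⊕ (Fin k ⊕ Fin k)) ℤ)) = 0) ↔
      ∀ i j, i ≤ j → v (Sum.inr (Sum.inl i)) * v (Sum.inr (Sum.inr j)) = 0 := by
    constructor
    · intro h i j hij
      have h3 := h (i, j) (mem_univ _)
      rwa [if_pos hij, map_mul, aeval_X, aeval_X] at h3
    · rintro h ⟨i, j⟩ -
      simp only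
      split_ifs with hij
      · rw [map_mul, aeval_X, aeval_X]
        exact h i j hij
      · exact map_zero _
  have h4 : aeval v (∑ i, X (Sum.inr (Sum.inl i)) - 1 :
      MvPolynomial (Fin N ⊕ (Fin k ⊕ Fin k)) ℤ) = 0 ↔ ∑ i, v (Sum.inr (Sum.inl i)) = 1 := by
    rw [map_sub, map_one, map_sum, sub_eq_zero]
    simp only [aeval_X]
  rw [h4]
  constructor
  · rintro ⟨⟨⟨a, b⟩, c⟩, d⟩
    exact ⟨h1.mp a, h2.mp fun ij h => b h, c, h3.mp fun ij h => d h⟩
  · rintro ⟨a, b, c, d⟩
    exact ⟨⟨⟨h1.mpr a, fun ij h => h2.mpr b ij h⟩, c⟩, fun ij h => h3.mpr d ij h⟩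

/-- `X × Ek` is an affine scheme. -/
lemma exists_prod {N : ℕ} (G : Finset (MvPolynomial (Fin N) ℤ)) (k : ℕ) :
    ∃ (M : ℕ) (G' : Finset (MvPolynomial (Fin M) ℤ)), ∀ (κ : Type) [Field κ] [Finite κ],
      Nat.card (affPoints G' κ) = Nat.card (affPoints G κ) * ∑ i ∈ range k, Nat.card κ ^ i := by
  classical
  let e : Fin N ⊕ (Fin k ⊕ Fin k) ≃ Fin (N + (k + k)) :=
    ((Equiv.refl _).sumCongr finSumFinEquiv).trans finSumFinEquiv
  refine ⟨_, (eqsE G k).image (rename e), fun κ _ _ => ?_⟩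
  rw [card_aff_rename e, ← card_Ek (κ := κ) k, ← Nat.card_prod]
  apply Nat.card_congr
  exact
    { toFun := fun v => (⟨fun i => v.1 (Sum.inl i), ((mem_eqsE G k v.1).mp v.2).1⟩,
        ⟨(fun i => v.1 (Sum.inr (Sum.inl i)), fun i => v.1 (Sum.inr (Sum.inr i))),
          ((mem_eqsE G k v.1).mp v.2).2⟩)
      invFun := fun w => ⟨Sum.elim w.1.1 (Sum.elim w.2.1.1 w.2.1.2),
        (mem_eqsE G k _).mpr ⟨w.1.2, w.2.2⟩⟩
      left_inv := fun v => by
        apply Subtype.ext
        funext s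
        rcases s with s | s | s <;> rfl
      right_inv := fun _ => rfl }

end Strata

section Cub

/-- The solutions of `1 + cub = 0` are the points of the cubic hypersurface. -/
lemma card_cub {a b m : ℕ} (H : Finset (Option (Fin a) × Option (Fin b) × Fin m)) (κ : Type)
    [Field κ] :
    Nat.card {v : (Fin a → κ) × (Fin b → κ) × (Fin m → κ) //
      1 + cub (J := Fin H.card) (fun τ => (H.equivFin.symm τ).1.1)
        (fun τ => (H.equivFin.symm τ).1.2.1) (fun τ => (H.equivFin.symm τ).1.2.2) v = 0} =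
      Nat.card (cubicPoints H κ) := by
  apply Nat.card_congr
  refine Equiv.subtypeEquiv
    { toFun := fun v => Sum.elim v.1 (Sum.elim v.2.1 fun j => - v.2.2 j)
      invFun := fun u => (fun i => u (Sum.inl i), fun i => u (Sum.inr (Sum.inl i)),
        fun i => - u (Sum.inr (Sum.inr i)))
      left_inv := fun v => by simp
      right_inv := fun u => by
        funext s
        rcases s with s | s | s
        · rfl
        · rfl
        · simp } fun v => ?_
  change _ ↔ aeval _ (cubicPoly H) = 1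
  rw [aeval_cubicPoly]
  simp only [Equiv.coe_fn_mk, Sum.elim_inl, Sum.elim_inr, mul_neg, sum_neg_distrib]
  rw [cub]
  have h1 : ∑ h ∈ H, hat v.1 h.1 * hat v.2.1 h.2.1 * v.2.2 h.2.2 =
      ∑ τ : Fin H.card, hat v.1 (H.equivFin.symm τ).1.1 * hat v.2.1 (H.equivFin.symm τ).1.2.1 *
        v.2.2 (H.equivFin.symm τ).1.2.2 := by
    rw [← sum_coe_sort H fun h => hat v.1 h.1 * hat v.2.1 h.2.1 * v.2.2 h.2.2]
    exact (Equiv.sum_comp H.equivFin.symm fun τ : H =>
      hat v.1 τ.1.1 * hat v.2.1 τ.1.2.1 * v.2.2 τ.1.2.2).symm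
  have h2 : ∑ h ∈ H, hat (fun i => v.1 i) h.1 * hat (fun k => v.2.1 k) h.2.1 * v.2.2 h.2.2 =
      ∑ τ : Fin H.card, hat v.1 (H.equivFin.symm τ).1.1 * hat v.2.1 (H.equivFin.symm τ).1.2.1 *
        v.2.2 (H.equivFin.symm τ).1.2.2 := h1
  rw [h2]
  constructor
  · intro h
    linear_combination -h
  · intro h
    linear_combination -h

/-- The cubic hypersurface as a closed subscheme of the affine space. -/
lemma exists_cubic_closed {a b m : ℕ} (H : Finset (Option (Fin a) × Option (Fin b) × Fin m)) :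
    ∃ (M : ℕ) (G : Finset (MvPolynomial (Fin M) ℤ)), ∀ (κ : Type) [Field κ],
      Nat.card (affPoints G κ) = Nat.card (cubicPoints H κ) := by
  classical
  let e : Fin a ⊕ (Fin b ⊕ Fin m) ≃ Fin (a + (b + m)) :=
    ((Equiv.refl _).sumCongr finSumFinEquiv).trans finSumFinEquiv
  refine ⟨_, ({cubicPoly H - 1} : Finset _).image (rename e), fun κ _ => ?_⟩
  rw [card_aff_rename e]
  apply Nat.card_congr
  refine Equiv.subtypeEquivRight fun v => ?_
  have h1 : (∀ F ∈ ({cubicPoly H - 1} : Finset _), aeval v F = 0) ↔ aeval v (cubicPoly H - 1) = 0 := by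
    simp only [mem_singleton, forall_eq]
  rw [h1, map_sub, map_one, sub_eq_zero]
  rfl

end Cub

section Map

variable {A B C A' B' C' : Type} [Fintype A] [Fintype B] [Fintype C] [DecidableEq A]
  [DecidableEq B] [DecidableEq C] [Fintype A'] [Fintype B'] [Fintype C'] [DecidableEq A']
  [DecidableEq B'] [DecidableEq C']

lemma card_Kv_map (eA : A ≃ A') (eB : B ≃ B') (eC : C ≃ C') (T : Finset (A × B × C)) (κ : Type)
    [Field κ] :
    Nat.card (Kv (T.map (eA.prodCongr (eB.prodCongr eC)).toEmbedding) κ) =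
      Nat.card (Kv T κ) := by
  apply Nat.card_congr
  refine Equiv.subtypeEquiv
    ((Equiv.arrowCongr eA.symm (Equiv.refl κ)).prodCongr
      ((Equiv.arrowCongr eB.symm (Equiv.refl κ)).prodCongr
        (Equiv.arrowCongr eC.symm (Equiv.refl κ)))) fun v => ?_
  refine and_congr ?_ ?_
  · rw [← eA.forall_congr_right]
    refine forall_congr' fun a => ?_
    rw [sum_filter, sum_map, sum_filter]
    simp
  · rw [← eB.forall_congr_right]
    refine forall_congr' fun a => ?_
    rw [sum_filter, sum_map, sum_filter]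
    simp

end Map

section Main

/-- **The group of a closed subscheme of the affine space.** -/
theorem exists_T_aff {N : ℕ} (G : Finset (MvPolynomial (Fin N) ℤ)) (k t : ℕ) :
    ∃ (a b m : ℕ) (T : Finset (Fin a × Fin b × Fin m)) (c : ℕ) (P : Polynomial ℤ),
      ∀ (κ : Type) [Field κ] [Finite κ],
        (Nat.card (ConjClasses (TG T κ)) : ℤ) = P.eval (Nat.card κ : ℤ) +
          (Nat.card κ : ℤ) ^ c * ((Nat.card κ : ℤ) ^ k - 1) * ((Nat.card κ : ℤ) ^ (2 * t) - 1) *
            Nat.card (affPoints G κ) := by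
  obtain ⟨M, G', hG'⟩ := exists_prod G k
  obtain ⟨b₁, m₁, H₁, -, -, h₁⟩ := exists_cubic_aff G'
  obtain ⟨M₂, G₂, h₂⟩ := exists_cubic_closed H₁
  obtain ⟨b₃, m₃, H₃, -, -, h₃⟩ := exists_cubic_aff G₂
  let α : Fin H₃.card → Option (Fin M₂) := fun τ => (H₃.equivFin.symm τ).1.1
  let β : Fin H₃.card → Option (Fin b₃) := fun τ => (H₃.equivFin.symm τ).1.2.1
  let γ : Fin H₃.card → Fin (m₃ + 1) := fun τ => (H₃.equivFin.symm τ).1.2.2
  let eI := Fintype.equivFin (Ix (Fin H₃.card) × Fin t)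
  let eV := Fintype.equivFin (Va (Fin M₂) (Fin b₃) (Fin (m₃ + 1)))
  refine ⟨_, _, _, (tens (Fin t) (ent α β γ)).map
    (eI.prodCongr (eI.prodCongr eV)).toEmbedding, m₁ + m₃,
    (Polynomial.X - 1) * (Polynomial.X ^ (M₂ + b₃ + (m₃ + 1)) + (Polynomial.X ^ (2 * t) - 1) *
      (Polynomial.X ^ (m₃ + M₂ + b₃) - Polynomial.X ^ m₃ * Polynomial.X ^ (m₁ + M + b₁))) +
      PA α t * PA β t * PC γ t, fun κ _ _ => ?_⟩
  rw [card_conjClasses, card_Kv_map, card_Kv_ent, card_cub]
  have g₁ := congrArg (fun x : ℕ => (x : ℤ)) (h₁ κ)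
  have g₃ := congrArg (fun x : ℕ => (x : ℤ)) (h₃ κ)
  rw [hG' κ] at g₁
  rw [h₂ κ] at g₃
  push_cast at g₁ g₃
  have g₄ : (∑ i ∈ range k, (Nat.card κ : ℤ) ^ i) * ((Nat.card κ : ℤ) - 1) =
      (Nat.card κ : ℤ) ^ k - 1 := geom_sum_mul _ _
  simp only [Polynomial.eval_add, Polynomial.eval_mul, Polynomial.eval_pow, Polynomial.eval_sub,
    Polynomial.eval_X, Polynomial.eval_one, Fintype.card_fin]
  rw [← g₄, pow_add _ m₁ m₃]
  generalize (Nat.card (cubicPoints H₃ κ) : ℤ) = y₃ at g₃ ⊢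
  generalize (Nat.card (cubicPoints H₁ κ) : ℤ) = y₁ at g₁ g₃
  have e₃ : y₃ = (Nat.card κ : ℤ) ^ (m₃ + M₂ + b₃) - (Nat.card κ : ℤ) ^ m₃ * y₁ := by
    linear_combination g₃
  have e₁ : y₁ = (Nat.card κ : ℤ) ^ (m₁ + M + b₁) - (Nat.card κ : ℤ) ^ m₁ *
      (Nat.card (affPoints G κ) * ∑ i ∈ range k, (Nat.card κ : ℤ) ^ i) := by
    linear_combination g₁
  rw [e₃, e₁]
  ring

/-- **The group of a closed subscheme of the projective space.** -/
theorem exists_T_proj {N : ℕ} (G : Finset (MvPolynomial (Fin (N + 1)) ℤ))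
    (hG : ∀ F ∈ G, ∃ d, F.IsHomogeneous d) (k t : ℕ) :
    ∃ (a b m : ℕ) (T : Finset (Fin a × Fin b × Fin m)) (c : ℕ) (P : Polynomial ℤ),
      ∀ (κ : Type) [Field κ] [Finite κ],
        (Nat.card (ConjClasses (TG T κ)) : ℤ) = P.eval (Nat.card κ : ℤ) +
          (Nat.card κ : ℤ) ^ c * ((Nat.card κ : ℤ) ^ k - 1) * ((Nat.card κ : ℤ) ^ (2 * t) - 1) *
            Nat.card (projPoints G κ) := by
  classical
  let e : Fin (N + 1) × Fin (N + 1) ≃ Fin ((N + 1) * (N + 1)) := finProdFinEquiv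
  obtain ⟨a, b, m, T, c, P, h⟩ := exists_T_aff ((jouSet G).image (rename e)) k t
  refine ⟨a, b, m, T, c + N, P, fun κ _ _ => ?_⟩
  rw [h κ]
  have h1 := card_jou (κ := κ) (G := G) hG
  rw [← card_aff_rename e] at h1
  have hq : (Nat.card κ : ℤ) ≠ 0 := by exact_mod_cast Nat.card_pos.ne'
  have h4 : (Nat.card (affPoints ((jouSet G).image (rename e)) κ) : ℤ) =
      (Nat.card κ : ℤ) ^ N * Nat.card (projPoints G κ) := by
    apply mul_left_cancel₀ hq
    have h5 : (Nat.card κ : ℤ) * Nat.card (affPoints ((jouSet G).image (rename e)) κ) =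
        (Nat.card κ : ℤ) ^ (N + 1) * Nat.card (projPoints G κ) := by exact_mod_cast h1
    rw [h5]
    ring
  rw [h4]
  ring

/-- The number of the conjugacy classes is the number of the points of an affine scheme. -/
theorem exists_aff_of_T {a b m : ℕ} (T : Finset (Fin a × Fin b × Fin m)) :
    ∃ (M : ℕ) (G : Finset (MvPolynomial (Fin M) ℤ)), ∀ (κ : Type) [Field κ] [Finite κ],
      Nat.card (ConjClasses (TG T κ)) = Nat.card (affPoints G κ) := by
  classical
  let e : Fin a ⊕ (Fin b ⊕ Fin m) ≃ Fin (a + (b + m)) :=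
    ((Equiv.refl _).sumCongr finSumFinEquiv).trans finSumFinEquiv
  let G₀ : Finset (MvPolynomial (Fin a ⊕ (Fin b ⊕ Fin m)) ℤ) :=
    (univ.image fun i : Fin a => ∑ h ∈ T with h.1 = i,
      X (Sum.inr (Sum.inl h.2.1)) * X (Sum.inr (Sum.inr h.2.2))) ∪
    univ.image fun k : Fin b => ∑ h ∈ T with h.2.1 = k,
      X (Sum.inl h.1) * X (Sum.inr (Sum.inr h.2.2))
  refine ⟨_, G₀.image (rename e), fun κ _ _ => ?_⟩
  rw [card_aff_rename e, card_conjClasses]
  apply Nat.card_congr
  refine Equiv.subtypeEquiv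
    { toFun := fun v => Sum.elim v.1 (Sum.elim v.2.1 v.2.2)
      invFun := fun u => (fun i => u (Sum.inl i), fun i => u (Sum.inr (Sum.inl i)),
        fun i => u (Sum.inr (Sum.inr i)))
      left_inv := fun v => rfl
      right_inv := fun u => by
        funext s
        rcases s with s | s | s <;> rfl } fun v => ?_
  change _ ↔ ∀ F ∈ G₀, aeval (Sum.elim v.1 (Sum.elim v.2.1 v.2.2)) F = 0
  rw [forall_mem_union, forall_mem_image, forall_mem_image]
  refine and_congr ?_ ?_
  · refine forall_congr' fun i => ?_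
    simp only [map_sum, map_mul, aeval_X, Sum.elim_inl, Sum.elim_inr, mem_univ, forall_true_left]
  · refine forall_congr' fun i => ?_
    simp only [map_sum, map_mul, aeval_X, Sum.elim_inl, Sum.elim_inr, mem_univ, forall_true_left]

end Main

end Pool.Agent.KS6_91.CN
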