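import Pool.Agent.KS6_91.CN.Tra

/-!
# The L-functions of the class numbers
-/

set_option autoImplicit false

namespace Pool.Agent.KS6_91.CN

open Finset MvPolynomial Pool.Agent.KS6_3.B2 Pool.Agent.KS6_57.OR

/-- `#Y(κ) = P(q) + q ^ c (q ^ k - 1) (q ^ (2 t) - 1) #X(κ)` for all finite fields `κ`, `q = #κ`; for
all primes `p` the multiplicity of the Frobenius eigenvalue `p ^ c α`, `|α| < p ^ k`,
`|α| < p ^ (2 t)`, for `Y` is the one of `α` for `X`, plus the coefficient `P_j` if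
`p ^ c α = p ^ j`; and the L-functions of weight `i < 2 k`, `i < 4 t`, of `X` and of weight `i + 2 c`
of `Y` (without the Euler factors for the primes in `S`) are related as follows, if the one of `X` is
defined (which is true for the schemes of finite type over `ℤ`: Dwork, Deligne).

For odd `i` and all `S`: `L(s)` is the L-function of `X` of weight `i` if and only if `L(s - c)` is the
L-function of `Y` of weight `i + 2 c`; one of them has a meromorphic (holomorphic) continuation to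
`ℂ` if and only if the other one has.

For finite `S` and all `i` there is a meromorphic function `Z`, the L-function of weight `i + 2 c` of
the numbers `P(q)` (a power of a shifted zeta function), such that `L(s)` is the L-function of `X` of
weight `i` if and only if `Z(s) L(s - c)` is the L-function of `Y` of weight `i + 2 c`; one of them
has a meromorphic continuation to `ℂ` if and only if the other one has. -/
def Realizes (k t c : ℕ) (P : Polynomial ℤ) (X Y : ∀ (κ : Type) [Field κ], Type) : Prop :=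
  (∀ (κ : Type) [Field κ] [Finite κ], (Nat.card (Y κ) : ℤ) = P.eval (Nat.card κ : ℤ) +
    (Nat.card κ : ℤ) ^ c * ((Nat.card κ : ℤ) ^ k - 1) * ((Nat.card κ : ℤ) ^ (2 * t) - 1) *
      Nat.card (X κ)) ∧
  (∀ (p : Nat.Primes) (μ : ℂ →₀ ℤ), IsFrob p (count X p) μ → (∀ α ∈ μ.support, 1 ≤ ‖α‖) →
    ∃ ν : ℂ →₀ ℤ, IsFrob p (count Y p) ν ∧ (∀ α ∈ ν.support, 1 ≤ ‖α‖) ∧
      ∀ α : ℂ, ‖α‖ < ((p : ℕ) : ℝ) ^ k → ‖α‖ < ((p : ℕ) : ℝ) ^ (2 * t) →
        ν (((p : ℕ) : ℂ) ^ c * α) = μ α + ∑ j ∈ P.support,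
          if ((p : ℕ) : ℂ) ^ j = ((p : ℕ) : ℂ) ^ c * α then P.coeff j else 0) ∧
  ∀ (S : Set Nat.Primes) (i : ℤ), i < 2 * (k : ℤ) → i < 4 * (t : ℤ) →
    (∃ L₀ : ℂ → ℂ, IsLN S (count X) i L₀) →
    (Odd i →
      (∀ L : ℂ → ℂ, IsLN S (count X) i L ↔ IsLN S (count Y) (i + 2 * c) fun s => L (s - c)) ∧
      ((∃ F : ℂ → ℂ, MeromorphicOn F Set.univ ∧ IsLN S (count X) i F) ↔
        ∃ F : ℂ → ℂ, MeromorphicOn F Set.univ ∧ IsLN S (count Y) (i + 2 * c) F) ∧
      ((∃ F : ℂ → ℂ, Differentiable ℂ F ∧ IsLN S (count X) i F) ↔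
        ∃ F : ℂ → ℂ, Differentiable ℂ F ∧ IsLN S (count Y) (i + 2 * c) F)) ∧
    (S.Finite →
      (∃ Z : ℂ → ℂ, MeromorphicOn Z Set.univ ∧
        IsL S (fun p l => ((P.eval (((p : ℕ) : ℤ) ^ l) : ℤ) : ℂ)) (i + 2 * c) Z ∧
        ∀ L : ℂ → ℂ, IsLN S (count X) i L ↔
          IsLN S (count Y) (i + 2 * c) fun s => Z s * L (s - c)) ∧
      ((∃ F : ℂ → ℂ, MeromorphicOn F Set.univ ∧ IsLN S (count X) i F) ↔
        ∃ F : ℂ → ℂ, MeromorphicOn F Set.univ ∧ IsLN S (count Y) (i + 2 * c) F))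

/-- If the L-function of weight `i` is defined, then it has a meromorphic continuation to `ℂ`. -/
def Continues (S : Set Nat.Primes) (N : Nat.Primes → ℕ → ℂ) (i : ℤ) : Prop :=
  ∀ L : ℂ → ℂ, IsLN S N i L → ∃ F : ℂ → ℂ, MeromorphicOn F Set.univ ∧ IsLN S N i F

section

variable {k t c : ℕ} {P : Polynomial ℤ} {X Y : ∀ (κ : Type) [Field κ], Type}

lemma rel_of (h : ∀ (κ : Type) [Field κ] [Finite κ], (Nat.card (Y κ) : ℤ) =
      P.eval (Nat.card κ : ℤ) + (Nat.card κ : ℤ) ^ c * ((Nat.card κ : ℤ) ^ k - 1) *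
        ((Nat.card κ : ℤ) ^ (2 * t) - 1) * Nat.card (X κ)) :
    Rel c k t (fun p l => ((P.eval (((p : ℕ) : ℤ) ^ l) : ℤ) : ℂ)) (count X) (count Y) := by
  intro p l hl
  have : Fact (p : ℕ).Prime := ⟨p.2⟩
  have h3 := h (GaloisField p l)
  rw [GaloisField.card (p : ℕ) l (by omega)] at h3
  have h4 := congrArg (fun t : ℤ => (t : ℂ)) h3
  push_cast at h4
  change (Nat.card (Y (GaloisField p l)) : ℂ) = _
  rw [h4]
  change _ = _ + (((p : ℕ) : ℂ) ^ (c : ℤ)) ^ l * ((Nat.card (X (GaloisField p l)) : ℂ) -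
    (((p : ℕ) : ℂ) ^ (k : ℤ)) ^ l * (Nat.card (X (GaloisField p l)) : ℂ) -
    (((p : ℕ) : ℂ) ^ ((2 * t : ℕ) : ℤ)) ^ l * (Nat.card (X (GaloisField p l)) : ℂ) +
      (((p : ℕ) : ℂ) ^ ((k + 2 * t : ℕ) : ℤ)) ^ l * (Nat.card (X (GaloisField p l)) : ℂ))
  simp only [zpow_natCast]
  ring

theorem realizes (h : ∀ (κ : Type) [Field κ] [Finite κ], (Nat.card (Y κ) : ℤ) =
      P.eval (Nat.card κ : ℤ) + (Nat.card κ : ℤ) ^ c * ((Nat.card κ : ℤ) ^ k - 1) *
        ((Nat.card κ : ℤ) ^ (2 * t) - 1) * Nat.card (X κ)) :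
    Realizes k t c P X Y := by
  have hR := rel_of h
  refine ⟨h, fun p μ hμ h1 => frob_rel (fun l hl => hR p l hl) hμ h1, fun S i hk ht hX =>
    ⟨fun hi => ?_, fun hS => ?_⟩⟩
  · have hZ := isL_poly_odd S P (w := i + 2 * c) (hi.add_even (even_two_mul _))
    have hA := effective_poly S P
    refine ⟨fun L => ?_, ?_, transfer_entire hR hk ht hA hZ hX⟩
    · simpa only [one_mul] using transfer_iff hR hk ht hA hZ hX L
    · exact transfer_mero hR hk ht hA hZ (fun s _ => MeromorphicAt.const 1 s) hX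
  · obtain ⟨Z, hZ, hZL⟩ := allContinue_poly P S (i + 2 * c) hS
    have hA := effective_poly S P
    exact ⟨⟨Z, hZ, hZL, fun L => transfer_iff hR hk ht hA hZL hX L⟩,
      transfer_mero hR hk ht hA hZL hZ hX⟩

lemma continues_of (h : ∀ (κ : Type) [Field κ] [Finite κ], (Nat.card (Y κ) : ℤ) =
      P.eval (Nat.card κ : ℤ) + (Nat.card κ : ℤ) ^ c * ((Nat.card κ : ℤ) ^ k - 1) *
        ((Nat.card κ : ℤ) ^ (2 * t) - 1) * Nat.card (X κ)) {S : Set Nat.Primes} {i : ℤ}
    (hk : i < 2 * (k : ℤ)) (ht : i < 4 * (t : ℤ)) (hS : S.Finite ∨ Odd i)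
    (hY : Continues S (count Y) (i + 2 * c)) : Continues S (count X) i := by
  intro L hL
  have hR := rel_of h
  obtain ⟨Z, hZ, hZL⟩ : ∃ Z : ℂ → ℂ, MeromorphicOn Z Set.univ ∧
      IsL S (fun p l => ((P.eval (((p : ℕ) : ℤ) ^ l) : ℤ) : ℂ)) (i + 2 * c) Z := by
    rcases hS with hS | hS
    · exact allContinue_poly P S (i + 2 * c) hS
    · exact ⟨fun _ => 1, fun s _ => MeromorphicAt.const 1 s,
        isL_poly_odd S P (hS.add_even (even_two_mul _))⟩
  have hA := effective_poly S P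
  exact (transfer_mero hR hk ht hA hZL hZ ⟨L, hL⟩).mpr (hY _ (transfer hR hk ht hL hA hZL))

end

/-- The class numbers are numbers of points. -/
lemma continues_T {a b m : ℕ} (T : Finset (Fin a × Fin b × Fin m)) {S : Set Nat.Primes} {i : ℤ}
    (h : ∀ (N : ℕ) (G : Finset (MvPolynomial (Fin N) ℤ)),
      Continues S (count fun κ _ => affPoints G κ) i) :
    Continues S (count fun κ _ => ConjClasses (TG T κ)) i := by
  obtain ⟨M, G, hG⟩ := exists_aff_of_T T
  have e : (count fun κ _ => ConjClasses (TG T κ)) = count fun κ _ => affPoints G κ := by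
    funext p l
    have : Fact (p : ℕ).Prime := ⟨p.2⟩
    exact congrArg (fun x : ℕ => (x : ℂ)) (hG (GaloisField p l))
  rw [e]
  exact h M G

lemma continues_aff {N : ℕ} (G : Finset (MvPolynomial (Fin N) ℤ)) {S : Set Nat.Primes} {i : ℤ}
    (hS : S.Finite ∨ Odd i)
    (h : ∀ (a b m : ℕ) (T : Finset (Fin a × Fin b × Fin m)) (c : ℕ),
      Continues S (count fun κ _ => ConjClasses (TG T κ)) (i + 2 * c)) :
    Continues S (count fun κ _ => affPoints G κ) i := by
  obtain ⟨a, b, m, T, c, P, hT⟩ := exists_T_aff G (i.toNat + 1) (i.toNat + 1)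
  exact continues_of hT (by push_cast; omega) (by push_cast; omega) hS (h a b m T c)

end Pool.Agent.KS6_91.CN
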