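import Mathlib

/-!
# The groups `G_T(κ)` of class two and the number of their conjugacy classes
-/

set_option autoImplicit false

namespace Pool.Agent.KS6_91.CN

open Finset

/-- The elements `(x, y, z)` of the group `G_T(κ)`. -/
@[ext] structure TG {A B C : Type} (T : Finset (A × B × C)) (κ : Type) where
  /-- the first part -/
  x : A → κ
  /-- the second part -/
  y : B → κ
  /-- the central part -/
  z : C → κ

variable {A B C : Type} [DecidableEq C]

/-- The component `c` of the bilinear map: `∑ x_a y_b` over the triples `(a, b, c) ∈ T`. -/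
def bil (T : Finset (A × B × C)) {κ : Type} [CommRing κ] (x : A → κ) (y : B → κ) (c : C) : κ :=
  ∑ h ∈ T with h.2.2 = c, x h.1 * y h.2.1

section Bil

variable (T : Finset (A × B × C)) {κ : Type} [CommRing κ] (x x' : A → κ) (y y' : B → κ) (c : C)

lemma bil_add_left : bil T (x + x') y c = bil T x y c + bil T x' y c := by
  simp only [bil, Pi.add_apply, add_mul, sum_add_distrib]

lemma bil_add_right : bil T x (y + y') c = bil T x y c + bil T x y' c := by
  simp only [bil, Pi.add_apply, mul_add, sum_add_distrib]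

lemma bil_neg_left : bil T (-x) y c = - bil T x y c := by
  simp only [bil, Pi.neg_apply, neg_mul, sum_neg_distrib]

lemma bil_zero_left : bil T (0 : A → κ) y c = 0 := by
  simp [bil]

end Bil

namespace TG

variable {T : Finset (A × B × C)} {κ : Type} [CommRing κ]

/-- `(x, y, z) (x', y', z') = (x + x', y + y', z + z' + b(x, y'))` -/
instance : Mul (TG T κ) :=
  ⟨fun g h => ⟨g.x + h.x, g.y + h.y, g.z + h.z + bil T g.x h.y⟩⟩
instance : One (TG T κ) := ⟨⟨0, 0, 0⟩⟩
instance : Inv (TG T κ) := ⟨fun g => ⟨-g.x, -g.y, -g.z + bil T g.x g.y⟩⟩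

@[simp] lemma mul_x (g h : TG T κ) : (g * h).x = g.x + h.x := rfl
@[simp] lemma mul_y (g h : TG T κ) : (g * h).y = g.y + h.y := rfl
@[simp] lemma mul_z (g h : TG T κ) : (g * h).z = g.z + h.z + bil T g.x h.y := rfl
@[simp] lemma one_x : (1 : TG T κ).x = 0 := rfl
@[simp] lemma one_y : (1 : TG T κ).y = 0 := rfl
@[simp] lemma one_z : (1 : TG T κ).z = 0 := rfl
@[simp] lemma inv_x (g : TG T κ) : (g⁻¹).x = -g.x := rfl
@[simp] lemma inv_y (g : TG T κ) : (g⁻¹).y = -g.y := rfl
@[simp] lemma inv_z (g : TG T κ) : (g⁻¹).z = -g.z + bil T g.x g.y := rfl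

instance : Group (TG T κ) :=
  Group.ofLeftAxioms
    (fun f g h => by
      ext c
      · simp [add_assoc]
      · simp [add_assoc]
      · simp only [mul_z, mul_x, mul_y, Pi.add_apply, bil_add_left, bil_add_right]
        ring)
    (fun g => by
      ext c
      · simp
      · simp
      · simp [bil_zero_left])
    (fun g => by
      ext c
      · simp
      · simp
      · simp only [mul_z, inv_x, inv_z, Pi.add_apply, Pi.neg_apply, bil_neg_left, one_z,
          Pi.zero_apply]
        ring)

lemma commute_iff (g h : TG T κ) : Commute g h ↔ ∀ c, bil T g.x h.y c = bil T h.x g.y c := by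
  constructor
  · intro hc c
    have h1 := congrFun (congrArg TG.z hc.eq) c
    simp only [mul_z, Pi.add_apply] at h1
    linear_combination h1
  · intro hc
    have h1 : bil T g.x h.y = bil T h.x g.y := funext hc
    change g * h = h * g
    ext c
    · simp [add_comm]
    · simp [add_comm]
    · simp only [mul_z, Pi.add_apply, h1]
      ring

/-- The group as a set. -/
def equiv (T : Finset (A × B × C)) (κ : Type) : TG T κ ≃ (A → κ) × (B → κ) × (C → κ) where
  toFun g := (g.x, g.y, g.z)
  invFun v := ⟨v.1, v.2.1, v.2.2⟩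
  left_inv _ := rfl
  right_inv _ := rfl

end TG

section Count

/-- The number of the solutions of a system of linear equations and of the transposed system. -/
lemma card_ker_transpose {κ : Type} [Field κ] [Finite κ] {I J : Type} [Fintype I] [Fintype J]
    [DecidableEq I] [DecidableEq J] (N : Matrix I J κ) :
    Nat.card κ ^ Fintype.card I * Nat.card {v : J → κ // N.mulVec v = 0} =
      Nat.card κ ^ Fintype.card J * Nat.card {u : I → κ // N.transpose.mulVec u = 0} := by
  have key : ∀ {I J : Type} [Fintype I] [Fintype J] [DecidableEq I] [DecidableEq J]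
      (N : Matrix I J κ), ∃ d : ℕ, d + N.rank = Fintype.card J ∧
        Nat.card {v : J → κ // N.mulVec v = 0} = Nat.card κ ^ d := by
    intro I J _ _ _ _ N
    refine ⟨Module.finrank κ (LinearMap.ker N.mulVecLin), ?_, ?_⟩
    · have h := LinearMap.finrank_range_add_finrank_ker N.mulVecLin
      rw [Module.finrank_pi] at h
      rw [add_comm]
      exact h
    · rw [← Module.natCard_eq_pow_finrank (K := κ) (V := LinearMap.ker N.mulVecLin)]
      rfl
  obtain ⟨d, hd, h1⟩ := key N
  obtain ⟨e, he, h2⟩ := key N.transpose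
  rw [Matrix.rank_transpose] at he
  rw [h1, h2, ← pow_add, ← pow_add]
  congr 1
  omega

variable {A B C : Type} [Fintype A] [Fintype B] [Fintype C] [DecidableEq A] [DecidableEq B]
  [DecidableEq C]

/-- The triples `(x, y, z)` with `∑ y_b z_c = 0` for all `a` and `∑ x_a z_c = 0` for all `b`. -/
def Kv (T : Finset (A × B × C)) (κ : Type) [Field κ] : Type :=
  {v : (A → κ) × (B → κ) × (C → κ) // (∀ a, ∑ h ∈ T with h.1 = a, v.2.1 h.2.1 * v.2.2 h.2.2 = 0) ∧
    ∀ b, ∑ h ∈ T with h.2.1 = b, v.1 h.1 * v.2.2 h.2.2 = 0}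

variable (T : Finset (A × B × C)) {κ : Type} [Field κ]

/-- The matrix of the linear map `(x', y') ↦ b(x, y') - b(x', y)`. -/
def comMat (x : A → κ) (y : B → κ) : Matrix C (A ⊕ B) κ := fun c => Sum.elim
  (fun a => - ∑ h ∈ T with h.2.2 = c ∧ h.1 = a, y h.2.1)
  fun b => ∑ h ∈ T with h.2.2 = c ∧ h.2.1 = b, x h.1

lemma comMat_mulVec (x : A → κ) (y : B → κ) (v : A ⊕ B → κ) (c : C) :
    (comMat T x y).mulVec v c = bil T x (fun b => v (Sum.inr b)) c -
      bil T (fun a => v (Sum.inl a)) y c := by
  have h1 : ∀ (f g : A × B × C → κ), ∑ a, (∑ h ∈ T with h.2.2 = c ∧ h.1 = a, g h) * v (Sum.inl a) =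
      ∑ h ∈ T with h.2.2 = c, g h * v (Sum.inl h.1) := by
    intro f g
    rw [← sum_fiberwise (T.filter fun h => h.2.2 = c) (fun h => h.1)
      fun h => g h * v (Sum.inl h.1)]
    refine sum_congr rfl fun a _ => ?_
    rw [filter_filter, sum_mul]
    refine sum_congr rfl fun h hh => ?_
    rw [(mem_filter.mp hh).2.2]
  have h2 : ∀ (g : A × B × C → κ), ∑ b, (∑ h ∈ T with h.2.2 = c ∧ h.2.1 = b, g h) *
      v (Sum.inr b) = ∑ h ∈ T with h.2.2 = c, g h * v (Sum.inr h.2.1) := by
    intro g
    rw [← sum_fiberwise (T.filter fun h => h.2.2 = c) (fun h => h.2.1)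
      fun h => g h * v (Sum.inr h.2.1)]
    refine sum_congr rfl fun a _ => ?_
    rw [filter_filter, sum_mul]
    refine sum_congr rfl fun h hh => ?_
    rw [(mem_filter.mp hh).2.2]
  rw [Matrix.mulVec, dotProduct, Fintype.sum_sum_type]
  simp only [comMat, Sum.elim_inl, Sum.elim_inr, neg_mul, sum_neg_distrib, bil]
  rw [h1 (fun h => y h.2.1) (fun h => y h.2.1), h2 (fun h => x h.1), neg_add_eq_sub]
  congr 1
  exact sum_congr rfl fun h _ => mul_comm _ _

lemma comMat_transpose_mulVec (x : A → κ) (y : B → κ) (z : C → κ) :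
    (comMat T x y).transpose.mulVec z = 0 ↔
      (∀ a, ∑ h ∈ T with h.1 = a, y h.2.1 * z h.2.2 = 0) ∧
        ∀ b, ∑ h ∈ T with h.2.1 = b, x h.1 * z h.2.2 = 0 := by
  have h1 : ∀ a, (comMat T x y).transpose.mulVec z (Sum.inl a) =
      - ∑ h ∈ T with h.1 = a, y h.2.1 * z h.2.2 := by
    intro a
    rw [Matrix.mulVec, dotProduct]
    simp only [Matrix.transpose_apply, comMat, Sum.elim_inl, neg_mul, sum_neg_distrib]
    congr 1
    rw [← sum_fiberwise (T.filter fun h => h.1 = a) (fun h => h.2.2)
      fun h => y h.2.1 * z h.2.2]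
    refine sum_congr rfl fun c _ => ?_
    rw [filter_filter, sum_mul]
    refine sum_congr ?_ fun h hh => ?_
    · ext h
      simp only [mem_filter]
      tauto
    · rw [(mem_filter.mp hh).2.2]
  have h2 : ∀ b, (comMat T x y).transpose.mulVec z (Sum.inr b) =
      ∑ h ∈ T with h.2.1 = b, x h.1 * z h.2.2 := by
    intro b
    rw [Matrix.mulVec, dotProduct]
    simp only [Matrix.transpose_apply, comMat, Sum.elim_inr]
    rw [← sum_fiberwise (T.filter fun h => h.2.1 = b) (fun h => h.2.2)
      fun h => x h.1 * z h.2.2]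
    refine sum_congr rfl fun c _ => ?_
    rw [filter_filter, sum_mul]
    refine sum_congr ?_ fun h hh => ?_
    · ext h
      simp only [mem_filter]
      tauto
    · rw [(mem_filter.mp hh).2.2]
  constructor
  · intro h
    refine ⟨fun a => ?_, fun b => ?_⟩
    · have h3 := congrFun h (Sum.inl a)
      rw [h1, Pi.zero_apply, neg_eq_zero] at h3
      exact h3
    · have h3 := congrFun h (Sum.inr b)
      rwa [h2, Pi.zero_apply] at h3
  · rintro ⟨h3, h4⟩
    funext s
    cases s with
    | inl a => rw [h1, h3, neg_zero, Pi.zero_apply]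
    | inr b => rw [h2, h4, Pi.zero_apply]

/-- **The class number.** The number of the conjugacy classes of `G_T(κ)` is the number of the points
of the scheme `Kv T`. -/
theorem card_conjClasses [Finite κ] : Nat.card (ConjClasses (TG T κ)) = Nat.card (Kv T κ) := by
  classical
  have hq : 0 < Nat.card κ := Nat.card_pos
  have : Fintype κ := Fintype.ofFinite κ
  have h0 := card_comm_eq_card_conjClasses_mul_card (TG T κ)
  have hG : Nat.card (TG T κ) = Nat.card κ ^ Fintype.card A * (Nat.card κ ^ Fintype.card B *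
      Nat.card κ ^ Fintype.card C) := by
    rw [Nat.card_congr (TG.equiv T κ), Nat.card_prod, Nat.card_prod, Nat.card_fun, Nat.card_fun,
      Nat.card_fun, Nat.card_eq_fintype_card (α := A), Nat.card_eq_fintype_card (α := B),
      Nat.card_eq_fintype_card (α := C)]
  -- the commuting pairs
  let Q : Type := Σ xy : (A → κ) × (B → κ), {v : A ⊕ B → κ // (comMat T xy.1 xy.2).mulVec v = 0}
  have e1 : {p : TG T κ × TG T κ // Commute p.1 p.2} ≃ Q × ((C → κ) × (C → κ)) :=
    { toFun := fun p => (⟨(p.1.1.x, p.1.1.y), Sum.elim p.1.2.x p.1.2.y, by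
          funext c
          rw [comMat_mulVec]
          simp only [Sum.elim_inr, Sum.elim_inl, Pi.zero_apply]
          exact sub_eq_zero.mpr ((TG.commute_iff _ _).mp p.2 c)⟩, (p.1.1.z, p.1.2.z))
      invFun := fun w => ⟨(⟨w.1.1.1, w.1.1.2, w.2.1⟩,
          ⟨fun a => w.1.2.1 (Sum.inl a), fun b => w.1.2.1 (Sum.inr b), w.2.2⟩), by
          rw [TG.commute_iff]
          intro c
          have h := congrFun w.1.2.2 c
          rw [comMat_mulVec, Pi.zero_apply, sub_eq_zero] at h
          exact h⟩
      left_inv := fun p => rfl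
      right_inv := fun w => by
        obtain ⟨⟨⟨x, y⟩, ⟨v, hv⟩⟩, z, z'⟩ := w
        simp only [Prod.mk.injEq, and_true]
        congr 1
        apply Subtype.ext
        funext s
        cases s <;> rfl }
  have h1 : Nat.card {p : TG T κ × TG T κ // Commute p.1 p.2} = Nat.card Q *
      (Nat.card κ ^ Fintype.card C * Nat.card κ ^ Fintype.card C) := by
    rw [Nat.card_congr e1, Nat.card_prod, Nat.card_prod, Nat.card_fun,
      Nat.card_eq_fintype_card (α := C)]
  let R : Type := Σ xy : (A → κ) × (B → κ),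
    {z : C → κ // (comMat T xy.1 xy.2).transpose.mulVec z = 0}
  have h2 : Nat.card κ ^ Fintype.card C * Nat.card Q =
      Nat.card κ ^ (Fintype.card A + Fintype.card B) * Nat.card R := by
    rw [Nat.card_sigma, Nat.card_sigma, mul_sum, mul_sum]
    refine sum_congr rfl fun xy _ => ?_
    have h := card_ker_transpose (comMat T xy.1 xy.2)
    rwa [Fintype.card_sum] at h
  have e2 : R ≃ Kv T κ :=
    { toFun := fun w => ⟨(w.1.1, w.1.2, w.2.1), (comMat_transpose_mulVec T _ _ _).mp w.2.2⟩
      invFun := fun v => ⟨(v.1.1, v.1.2.1), v.1.2.2, (comMat_transpose_mulVec T _ _ _).mpr v.2⟩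
      left_inv := fun _ => rfl
      right_inv := fun _ => rfl }
  rw [Nat.card_congr e2] at h2
  rw [h1, hG] at h0
  have hA := pow_pos hq (Fintype.card A)
  have hB := pow_pos hq (Fintype.card B)
  have hC := pow_pos hq (Fintype.card C)
  rw [pow_add] at h2
  have h3 : (Nat.card κ ^ Fintype.card A * Nat.card κ ^ Fintype.card B *
      Nat.card κ ^ Fintype.card C) * Nat.card (ConjClasses (TG T κ)) =
      (Nat.card κ ^ Fintype.card A * Nat.card κ ^ Fintype.card B *
      Nat.card κ ^ Fintype.card C) * Nat.card (Kv T κ) := by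
    calc _ = Nat.card (ConjClasses (TG T κ)) * (Nat.card κ ^ Fintype.card A *
          (Nat.card κ ^ Fintype.card B * Nat.card κ ^ Fintype.card C)) := by ring
      _ = Nat.card Q * (Nat.card κ ^ Fintype.card C * Nat.card κ ^ Fintype.card C) := h0.symm
      _ = Nat.card κ ^ Fintype.card C * (Nat.card κ ^ Fintype.card C * Nat.card Q) := by ring
      _ = _ := by rw [h2]; ring
  exact Nat.eq_of_mul_eq_mul_left (mul_pos (mul_pos hA hB) hC) h3

end Count

end Pool.Agent.KS6_91.CN
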