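import Pool.Agent.KS6_91.CN.Grp

/-!
# The matrix of a sparse cubic polynomial and its kernels
-/

set_option autoImplicit false

namespace Pool.Agent.KS6_91.CN

open Finset

section Kset

variable {J : Type} [Fintype J] {κ : Type} [Field κ]

/-- The kernel. -/
def Kset (w : κ) (X Y Z : J → κ) : Type :=
  {v : κ × (J → κ) × (J → κ) // v.1 * w + ∑ τ, v.2.1 τ * X τ = 0 ∧
    (∀ τ, v.2.1 τ * w + v.2.2 τ * Z τ = 0) ∧ ∀ τ, v.1 * Y τ + v.2.2 τ * w = 0}

lemma card_mul_eq_zero [Finite κ] [DecidableEq κ] (s : κ) :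
    Nat.card {v : κ // v * s = 0} = if s = 0 then Nat.card κ else 1 := by
  split_ifs with h
  · subst h
    refine Nat.card_congr (Equiv.subtypeUnivEquiv fun v => mul_zero v)
  · have : Unique {v : κ // v * s = 0} :=
      { default := ⟨0, zero_mul s⟩
        uniq := fun v => Subtype.ext ((mul_eq_zero.mp v.2).resolve_right h) }
    exact Nat.card_unique

/-- The case `w ≠ 0`. -/
lemma card_Kset [Finite κ] [DecidableEq κ] {w : κ} (hw : w ≠ 0) (X Y Z : J → κ) :
    Nat.card (Kset w X Y Z) = if w ^ 3 + ∑ τ, X τ * Y τ * Z τ = 0 then Nat.card κ else 1 := by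
  rw [← card_mul_eq_zero]
  apply Nat.card_congr
  have h2 : ∀ v : Kset w X Y Z, ∀ τ, v.1.2.2 τ = - (v.1.1 * Y τ) / w := by
    intro v τ
    have h := v.2.2.2 τ
    field_simp
    linear_combination h
  have h1 : ∀ v : Kset w X Y Z, ∀ τ, v.1.2.1 τ = v.1.1 * Y τ * Z τ / w ^ 2 := by
    intro v τ
    have h := v.2.2.1 τ
    rw [h2 v τ] at h
    field_simp at h ⊢
    linear_combination h
  refine
    { toFun := fun v => ⟨v.1.1, ?_⟩
      invFun := fun v => ⟨(v.1, fun τ => v.1 * Y τ * Z τ / w ^ 2, fun τ => - (v.1 * Y τ) / w),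
        ?_, ?_, ?_⟩
      left_inv := ?_
      right_inv := fun v => rfl }
  · have h := v.2.1
    have h3 : ∑ τ, v.1.2.1 τ * X τ = v.1.1 * (∑ τ, X τ * Y τ * Z τ) / w ^ 2 := by
      rw [mul_sum, sum_div]
      refine sum_congr rfl fun τ _ => ?_
      rw [h1 v τ]
      ring
    rw [h3] at h
    field_simp at h
    linear_combination h
  · have h := v.2
    have h3 : ∑ τ, v.1 * Y τ * Z τ / w ^ 2 * X τ = v.1 * (∑ τ, X τ * Y τ * Z τ) / w ^ 2 := by
      rw [mul_sum, sum_div]
      refine sum_congr rfl fun τ _ => ?_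
      ring
    simp only
    rw [h3]
    field_simp
    linear_combination h
  · intro τ
    simp only
    field_simp
    ring
  · intro τ
    simp only
    field_simp
    ring
  · intro v
    apply Subtype.ext
    refine Prod.ext rfl (Prod.ext (funext fun τ => ?_) (funext fun τ => ?_))
    · exact (h1 v τ).symm
    · exact (h2 v τ).symm

/-- The case `w = 0`. -/
lemma card_Kset_zero (X Y Z : J → κ) :
    Nat.card (Kset 0 X Y Z) = Nat.card {v : J → κ // ∑ τ, v τ * X τ = 0} *
      Nat.card {v : κ // ∀ τ, v * Y τ = 0} * Nat.card {v : J → κ // ∀ τ, v τ * Z τ = 0} := by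
  rw [← Nat.card_prod, ← Nat.card_prod]
  apply Nat.card_congr
  exact
    { toFun := fun v => ((⟨v.1.2.1, by simpa using v.2.1⟩, ⟨v.1.1, fun τ => by
          simpa using v.2.2.2 τ⟩), ⟨v.1.2.2, fun τ => by simpa using v.2.2.1 τ⟩)
      invFun := fun v => ⟨(v.1.2.1, v.1.1.1, v.2.1), by
          simpa using v.1.1.2, fun τ => by simpa using v.2.2 τ, fun τ => by
          simpa using v.1.2.2 τ⟩
      left_inv := fun _ => rfl
      right_inv := fun _ => rfl }

variable [Finite κ] [DecidableEq κ]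

lemma card_hyper (X : J → κ) : Nat.card {v : J → κ // ∑ τ, v τ * X τ = 0} =
    if X = 0 then Nat.card κ ^ Fintype.card J else Nat.card κ ^ (Fintype.card J - 1) := by
  classical
  split_ifs with h
  · subst h
    rw [Nat.card_congr (Equiv.subtypeUnivEquiv fun v => by simp), Nat.card_fun,
      Nat.card_eq_fintype_card (α := J)]
  · obtain ⟨j₀, hj⟩ : ∃ τ, X τ ≠ 0 := by
      by_contra hc
      push Not at hc
      exact h (funext hc)
    let φ : (J → κ) →+ κ :=
      { toFun := fun z => ∑ j, z j * X j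
        map_zero' := by simp
        map_add' := by
          intro z w
          rw [← Finset.sum_add_distrib]
          exact Finset.sum_congr rfl fun j _ => by rw [Pi.add_apply, add_mul] }
    have hval : ∀ t : κ, φ (Pi.single j₀ (t * (X j₀)⁻¹)) = t := by
      intro t
      change ∑ j, (Pi.single j₀ (t * (X j₀)⁻¹) : J → κ) j * X j = t
      rw [Finset.sum_eq_single j₀]
      · rw [Pi.single_eq_same, mul_assoc, inv_mul_cancel₀ hj, mul_one]
      · intro j _ hne
        rw [Pi.single_eq_of_ne hne, zero_mul]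
      · intro h
        exact absurd (Finset.mem_univ _) h
    have hsur : Function.Surjective φ := fun t => ⟨_, hval t⟩
    have h1 : Nat.card (J → κ) = Nat.card ((J → κ) ⧸ φ.ker) * Nat.card φ.ker :=
      AddSubgroup.card_eq_card_quotient_mul_card_addSubgroup _
    have h2 : Nat.card ((J → κ) ⧸ φ.ker) = Nat.card κ :=
      Nat.card_congr (QuotientAddGroup.quotientKerEquivOfSurjective φ hsur).toEquiv
    have h3 : Nat.card φ.ker = Nat.card {v : J → κ // ∑ τ, v τ * X τ = 0} := rfl
    have hJ : Fintype.card J = Fintype.card J - 1 + 1 := by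
      have : 0 < Fintype.card J := Fintype.card_pos_iff.mpr ⟨j₀⟩
      omega
    rw [h2, Nat.card_fun, Nat.card_eq_fintype_card (α := J), h3, hJ, pow_succ, mul_comm] at h1
    exact (Nat.eq_of_mul_eq_mul_left Nat.card_pos h1).symm

lemma card_scal (Y : J → κ) : Nat.card {v : κ // ∀ τ, v * Y τ = 0} =
    if Y = 0 then Nat.card κ else 1 := by
  split_ifs with h
  · subst h
    exact Nat.card_congr (Equiv.subtypeUnivEquiv fun v τ => mul_zero v)
  · obtain ⟨τ₀, h0⟩ : ∃ τ, Y τ ≠ 0 := by
      by_contra hc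
      push Not at hc
      exact h (funext hc)
    have : Unique {v : κ // ∀ τ, v * Y τ = 0} :=
      { default := ⟨0, fun τ => zero_mul _⟩
        uniq := fun v => Subtype.ext ((mul_eq_zero.mp (v.2 τ₀)).resolve_right h0) }
    exact Nat.card_unique

lemma card_diag (Z : J → κ) : Nat.card {v : J → κ // ∀ τ, v τ * Z τ = 0} =
    ∏ τ, if Z τ = 0 then Nat.card κ else 1 := by
  have e : {v : J → κ // ∀ τ, v τ * Z τ = 0} ≃ ∀ τ, {v : κ // v * Z τ = 0} :=
    { toFun := fun v τ => ⟨v.1 τ, v.2 τ⟩
      invFun := fun u => ⟨fun τ => (u τ).1, fun τ => (u τ).2⟩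
      left_inv := fun _ => rfl
      right_inv := fun _ => rfl }
  rw [Nat.card_congr e, Nat.card_pi]
  exact prod_congr rfl fun τ _ => card_mul_eq_zero _

end Kset

end Pool.Agent.KS6_91.CN
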