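import Pool.Agent.KS6_91.CN.Ker

/-!
# The group of a sparse cubic polynomial
-/

set_option autoImplicit false

namespace Pool.Agent.KS6_91.CN

open Finset

/-- The variables: `none` is the homogenizing variable `w`, the other ones are the `x_i`, `y_k`,
`z_j`. -/
abbrev Va (A B C : Type) : Type := Option (A ⊕ (B ⊕ C))

/-- The rows and columns of the matrix. -/
abbrev Ix (J : Type) : Type := Option (J ⊕ J)

section Ent

variable {A B C J : Type} [DecidableEq J]

/-- The entries of the matrix: variables or `0` (`none`). -/
def ent (α : J → Option A) (β : J → Option B) (γ : J → C) : Ix J → Ix J → Option (Va A B C)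
  | none, none => some none
  | none, some (Sum.inl τ) => some ((α τ).map Sum.inl)
  | none, some (Sum.inr _) => none
  | some (Sum.inl _), none => none
  | some (Sum.inl τ), some (Sum.inl τ') => if τ = τ' then some none else none
  | some (Sum.inl τ), some (Sum.inr τ') =>
    if τ = τ' then some (some (Sum.inr (Sum.inr (γ τ)))) else none
  | some (Sum.inr τ), none => some ((β τ).map fun b => Sum.inr (Sum.inl b))
  | some (Sum.inr _), some (Sum.inl _) => none
  | some (Sum.inr τ), some (Sum.inr τ') => if τ = τ' then some none else none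

/-- The value of an entry. -/
def ev {V κ : Type} [Zero κ] (z : V → κ) (o : Option V) : κ := o.elim 0 z

lemma ev_ite {V κ : Type} [Zero κ] (z : V → κ) (p : Prop) [Decidable p] (o : Option V) :
    ev z (if p then o else none) = if p then ev z o else 0 := by
  split_ifs <;> rfl

lemma ev_none {V κ : Type} [Zero κ] (z : V → κ) : ev z none = 0 := rfl

lemma ev_some {V κ : Type} [Zero κ] (z : V → κ) (v : V) : ev z (some v) = z v := rfl

end Ent

section Tens

variable {I K V S : Type} [Fintype I] [Fintype K] [Fintype V] [Fintype S] [DecidableEq I]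
  [DecidableEq K] [DecidableEq V] [DecidableEq S]

/-- The set of triples of `S` copies of a matrix. -/
def tens (S : Type) [Fintype S] [DecidableEq S] (e : I → K → Option V) :
    Finset ((I × S) × (K × S) × V) :=
  univ.filter fun h => h.1.2 = h.2.1.2 ∧ e h.1.1 h.2.1.1 = some h.2.2

variable (e : I → K → Option V) {κ : Type} [Field κ]

lemma sum_ev (o : Option V) (t : κ) (z : V → κ) :
    ∑ v, (if o = some v then t * z v else 0) = t * ev z o := by
  cases o with
  | none => simp [ev]
  | some u =>
    rw [Fintype.sum_eq_single u]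
    · rw [if_pos rfl]
      rfl
    · intro v hv
      rw [if_neg]
      intro h
      exact hv (Option.some.inj h).symm

lemma sum_tens_left (y : K × S → κ) (z : V → κ) (r : I) (s : S) :
    ∑ h ∈ tens S e with h.1 = (r, s), y h.2.1 * z h.2.2 = ∑ c, y (c, s) * ev z (e r c) := by
  rw [tens, filter_filter, sum_filter, Fintype.sum_prod_type, Fintype.sum_eq_single (r, s)]
  · rw [Fintype.sum_prod_type, Fintype.sum_prod_type]
    refine sum_congr rfl fun c _ => ?_
    rw [Fintype.sum_eq_single s]
    · rw [← sum_ev]
      refine sum_congr rfl fun v _ => ?_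
      simp
    · intro s' hs'
      refine sum_eq_zero fun v _ => if_neg ?_
      rintro ⟨⟨h, -⟩, -⟩
      exact hs' h.symm
  · intro rs hrs
    refine sum_eq_zero fun v _ => if_neg ?_
    rintro ⟨-, h⟩
    exact hrs h

lemma sum_tens_right (x : I × S → κ) (z : V → κ) (c : K) (s : S) :
    ∑ h ∈ tens S e with h.2.1 = (c, s), x h.1 * z h.2.2 = ∑ r, x (r, s) * ev z (e r c) := by
  rw [tens, filter_filter, sum_filter, Fintype.sum_prod_type, Fintype.sum_prod_type]
  refine sum_congr rfl fun r _ => ?_
  rw [Fintype.sum_eq_single s]
  · rw [Fintype.sum_prod_type, Fintype.sum_eq_single (c, s)]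
    · rw [← sum_ev]
      refine sum_congr rfl fun v _ => ?_
      simp
    · intro cs hcs
      refine sum_eq_zero fun v _ => if_neg ?_
      rintro ⟨-, h⟩
      exact hcs h
  · intro s' hs'
    refine sum_eq_zero fun v _ => if_neg ?_
    rintro ⟨⟨h1, -⟩, h2⟩
    apply hs'
    rw [h2] at h1
    exact h1

/-- The right kernel. -/
def KR (z : V → κ) : Type := {y : K → κ // ∀ r, ∑ c, y c * ev z (e r c) = 0}

/-- The left kernel. -/
def KL (z : V → κ) : Type := {x : I → κ // ∀ c, ∑ r, x r * ev z (e r c) = 0}

/-- The points of `Kv` for `S` copies of a matrix. -/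
theorem card_Kv_tens [Finite κ] : Nat.card (Kv (tens S e) κ) =
    ∑ᶠ z : V → κ, (Nat.card (KR e z) * Nat.card (KL e z)) ^ Fintype.card S := by
  classical
  have : Fintype κ := Fintype.ofFinite κ
  have E : Kv (tens S e) κ ≃ Σ z : V → κ, (S → KR e z) × (S → KL e z) :=
    { toFun := fun v => ⟨v.1.2.2, fun s => ⟨fun c => v.1.2.1 (c, s), fun r => by
          rw [← sum_tens_left]
          exact v.2.1 (r, s)⟩, fun s => ⟨fun r => v.1.1 (r, s), fun c => by
          rw [← sum_tens_right]
          exact v.2.2 (c, s)⟩⟩
      invFun := fun w => ⟨(fun rs => (w.2.2 rs.2).1 rs.1, fun cs => (w.2.1 cs.2).1 cs.1, w.1),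
        fun rs => by
          rw [show rs = (rs.1, rs.2) from rfl, sum_tens_left]
          exact (w.2.1 rs.2).2 rs.1, fun cs => by
          rw [show cs = (cs.1, cs.2) from rfl, sum_tens_right]
          exact (w.2.2 cs.2).2 cs.1⟩
      left_inv := fun _ => rfl
      right_inv := fun _ => rfl }
  have h1 : ∀ z : V → κ, Finite (KR e z) := fun z => Subtype.finite
  have h2 : ∀ z : V → κ, Finite (KL e z) := fun z => Subtype.finite
  rw [Nat.card_congr E, finsum_eq_sum_of_fintype, Nat.card_sigma]
  refine sum_congr rfl fun z _ => ?_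
  rw [Nat.card_prod, Nat.card_fun, Nat.card_fun, Nat.card_eq_fintype_card (α := S), mul_pow]

end Tens

section Cubic

variable {A B C J : Type} [Fintype A] [Fintype B] [Fintype C] [Fintype J] [DecidableEq A]
  [DecidableEq B] [DecidableEq C] [DecidableEq J]
  (α : J → Option A) (β : J → Option B) (γ : J → C) {κ : Type} [Field κ]

/-- The kernels for the matrix `ent`. -/
lemma card_KR (z : Va A B C → κ) : Nat.card (KR (ent α β γ) z) =
    Nat.card (Kset (z none) (fun τ => z ((α τ).map Sum.inl))
      (fun τ => z ((β τ).map fun b => Sum.inr (Sum.inl b)))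
      fun τ => z (some (Sum.inr (Sum.inr (γ τ))))) := by
  apply Nat.card_congr
  refine Equiv.subtypeEquiv ?_ fun y => ?_
  · exact
      { toFun := fun y => (y none, fun τ => y (some (Sum.inl τ)), fun τ => y (some (Sum.inr τ)))
        invFun := fun v o => match o with
          | none => v.1
          | some (Sum.inl τ) => v.2.1 τ
          | some (Sum.inr τ) => v.2.2 τ
        left_inv := fun y => by
          funext o
          rcases o with _ | τ | τ <;> rfl
        right_inv := fun _ => rfl }
  · simp only [Fintype.sum_option, Fintype.sum_sum_type, Equiv.coe_fn_mk]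
    rw [Option.forall, Sum.forall]
    refine and_congr ?_ (and_congr (forall_congr' fun τ => ?_) (forall_congr' fun τ => ?_))
    · simp [ent, ev]
    · simp [ent, ev_ite, ev_none, ev_some]
    · simp [ent, ev_ite, ev_none, ev_some]

lemma card_KL (z : Va A B C → κ) : Nat.card (KL (ent α β γ) z) =
    Nat.card (Kset (z none) (fun τ => z ((β τ).map fun b => Sum.inr (Sum.inl b)))
      (fun τ => z ((α τ).map Sum.inl)) fun τ => z (some (Sum.inr (Sum.inr (γ τ))))) := by
  apply Nat.card_congr
  refine Equiv.subtypeEquiv ?_ fun y => ?_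
  · exact
      { toFun := fun y => (y none, fun τ => y (some (Sum.inr τ)), fun τ => y (some (Sum.inl τ)))
        invFun := fun v o => match o with
          | none => v.1
          | some (Sum.inl τ) => v.2.2 τ
          | some (Sum.inr τ) => v.2.1 τ
        left_inv := fun y => by
          funext o
          rcases o with _ | τ | τ <;> rfl
        right_inv := fun _ => rfl }
  · simp only [Fintype.sum_option, Fintype.sum_sum_type, Equiv.coe_fn_mk]
    rw [Option.forall, Sum.forall]
    have h1 : ∀ a b c : Prop, (a ∧ b ∧ c) ↔ (a ∧ c ∧ b) := fun a b c => by tauto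
    rw [h1]
    refine and_congr ?_ (and_congr (forall_congr' fun τ => ?_) (forall_congr' fun τ => ?_))
    · simp [ent, ev]
    · simp [ent, ev_ite, ev_none, ev_some, add_comm]
    · simp [ent, ev_ite, ev_none, ev_some]

end Cubic

end Pool.Agent.KS6_91.CN
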