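import Pool.Agent.KS6_91.CN.Mat
import Pool.Agent.KS6_3.B2.Main

/-!
# The class number of the group of a sparse cubic polynomial
-/

set_option autoImplicit false

namespace Pool.Agent.KS6_91.CN

open Finset Pool.Agent.KS6_3.B2

section Parts

variable {J : Type} [Fintype J] {κ : Type} [Field κ] [Fintype κ] [DecidableEq κ]

/-- The polynomial for the part `x` at `w = 0`. -/
noncomputable def PA {A : Type} [Fintype A] [DecidableEq A] (α : J → Option A) (s : ℕ) :
    Polynomial ℤ :=
  Polynomial.X ^ (univ.filter fun i : A => ∀ τ, α τ ≠ some i).card *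
      (Polynomial.X ^ Fintype.card J * Polynomial.X) ^ s +
    (Polynomial.X ^ Fintype.card A -
      Polynomial.X ^ (univ.filter fun i : A => ∀ τ, α τ ≠ some i).card) *
      (Polynomial.X ^ (Fintype.card J - 1)) ^ s

lemma card_X_zero {A : Type} [Fintype A] [DecidableEq A] (α : J → Option A) :
    (univ.filter fun x : A → κ => (fun τ => (α τ).elim 0 x) = 0).card =
      Fintype.card κ ^ (univ.filter fun i : A => ∀ τ, α τ ≠ some i).card := by
  classical
  have h1 : ∀ x : A → κ, (fun τ => (α τ).elim 0 x) = 0 ↔ ∀ i, ¬ (∀ τ, α τ ≠ some i) → x i = 0 := by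
    intro x
    constructor
    · intro h i hi
      push Not at hi
      obtain ⟨τ, hτ⟩ := hi
      have h2 := congrFun h τ
      simp only [hτ] at h2
      exact h2
    · intro h
      funext τ
      cases hα : α τ with
      | none => rfl
      | some i => exact h i fun h' => h' τ hα
  have e : {x : A → κ // (fun τ => (α τ).elim 0 x) = 0} ≃ ({i : A // ∀ τ, α τ ≠ some i} → κ) :=
    { toFun := fun x i => x.1 i.1
      invFun := fun u => ⟨fun i => if hi : ∀ τ, α τ ≠ some i then u ⟨i, hi⟩ else 0, by
        rw [h1]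
        intro i hi
        rw [dif_neg hi]⟩
      left_inv := fun x => by
        apply Subtype.ext
        funext i
        by_cases hi : ∀ τ, α τ ≠ some i
        · simp only [dif_pos hi]
        · simp only [dif_neg hi]
          exact ((h1 x.1).mp x.2 i hi).symm
      right_inv := fun u => by
        funext i
        simp only [dif_pos i.2] }
  rw [← Fintype.card_subtype, Fintype.card_congr e, Fintype.card_fun, Fintype.card_subtype]

lemma sum_PA {A : Type} [Fintype A] [DecidableEq A] (α : J → Option A) (s : ℕ) :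
    ∑ x : A → κ, (((Nat.card {v : J → κ // ∑ τ, v τ * (α τ).elim 0 x = 0} *
      Nat.card {v : κ // ∀ τ, v * (α τ).elim 0 x = 0}) ^ s : ℕ) : ℤ) =
      (PA α s).eval (Nat.card κ : ℤ) := by
  have h1 : ∀ x : A → κ, (((Nat.card {v : J → κ // ∑ τ, v τ * (α τ).elim 0 x = 0} *
      Nat.card {v : κ // ∀ τ, v * (α τ).elim 0 x = 0}) ^ s : ℕ) : ℤ) =
      if (fun τ => (α τ).elim 0 x) = 0 then
        ((Nat.card κ : ℤ) ^ Fintype.card J * (Nat.card κ : ℤ)) ^ s else
        ((Nat.card κ : ℤ) ^ (Fintype.card J - 1)) ^ s := by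
    intro x
    have h2 := card_hyper (κ := κ) fun τ => (α τ).elim 0 x
    have h3 := card_scal (κ := κ) fun τ => (α τ).elim 0 x
    rw [h2, h3]
    split_ifs
    · push_cast
      rfl
    · push_cast
      rw [mul_one]
  have hq : Nat.card κ = Fintype.card κ := Nat.card_eq_fintype_card
  rw [sum_congr rfl fun x _ => h1 x, sum_ite, sum_const, sum_const, nsmul_eq_mul, nsmul_eq_mul]
  have h4 : (univ.filter fun x : A → κ => ¬ (fun τ => (α τ).elim 0 x) = 0).card +
      (univ.filter fun x : A → κ => (fun τ => (α τ).elim 0 x) = 0).card =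
      Fintype.card κ ^ Fintype.card A := by
    rw [add_comm, card_filter_add_card_filter_not, card_univ, Fintype.card_fun]
  rw [card_X_zero] at h4 ⊢
  have h5 : ((univ.filter fun x : A → κ => ¬ (fun τ => (α τ).elim 0 x) = 0).card : ℤ) =
      (Nat.card κ : ℤ) ^ Fintype.card A -
        (Nat.card κ : ℤ) ^ (univ.filter fun i : A => ∀ τ, α τ ≠ some i).card := by
    rw [hq]
    have h6 := congrArg (fun t : ℕ => (t : ℤ)) h4
    push_cast at h6
    linear_combination h6
  rw [h5]
  simp only [PA, Polynomial.eval_add, Polynomial.eval_mul, Polynomial.eval_pow,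
    Polynomial.eval_sub, Polynomial.eval_X]
  push_cast
  rw [hq]

/-- The polynomial for the part `z` at `w = 0`. -/
noncomputable def PC {C : Type} [Fintype C] [DecidableEq C] (γ : J → C) (s : ℕ) :
    Polynomial ℤ :=
  ∏ c, (Polynomial.X ^ (2 * s * (univ.filter fun τ : J => γ τ = c).card) + Polynomial.X - 1)

lemma sum_PC {C : Type} [Fintype C] [DecidableEq C] (γ : J → C) (s : ℕ) :
    ∑ z : C → κ, ((Nat.card {v : J → κ // ∀ τ, v τ * z (γ τ) = 0} ^ (2 * s) : ℕ) : ℤ) =
      (PC γ s).eval (Nat.card κ : ℤ) := by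
  classical
  have h1 : ∀ z : C → κ, ((Nat.card {v : J → κ // ∀ τ, v τ * z (γ τ) = 0} ^ (2 * s) : ℕ) : ℤ) =
      ∏ c, if z c = 0 then
        (Nat.card κ : ℤ) ^ (2 * s * (univ.filter fun τ : J => γ τ = c).card) else 1 := by
    intro z
    have h2 := card_diag (κ := κ) fun τ => z (γ τ)
    rw [h2, ← prod_fiberwise univ γ]
    push_cast
    rw [← prod_pow]
    refine prod_congr rfl fun c _ => ?_
    rw [prod_congr rfl (g := fun _ => if z c = 0 then (Nat.card κ : ℤ) else 1) fun τ hτ => by
      rw [(mem_filter.mp hτ).2], prod_const]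
    split_ifs
    · rw [← pow_mul]
      congr 1
      ring
    · rw [one_pow, one_pow]
  rw [sum_congr rfl fun z _ => h1 z]
  have h3 := Finset.prod_univ_sum (fun _ : C => (univ : Finset κ)) fun c t => if t = 0 then
    (Nat.card κ : ℤ) ^ (2 * s * (univ.filter fun τ : J => γ τ = c).card) else 1
  rw [Fintype.piFinset_univ] at h3
  rw [← h3, PC, Polynomial.eval_prod]
  refine prod_congr rfl fun c _ => ?_
  rw [sum_ite, sum_const, sum_const, nsmul_eq_mul, nsmul_eq_mul]
  have h4 : (univ.filter fun t : κ => t = 0).card = 1 := by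
    rw [filter_eq' univ 0, if_pos (mem_univ _), card_singleton]
  have h5 : ((univ.filter fun t : κ => ¬ t = 0).card : ℤ) = (Nat.card κ : ℤ) - 1 := by
    have h6 := card_filter_add_card_filter_not (s := (univ : Finset κ)) fun t : κ => t = 0
    rw [h4, card_univ] at h6
    rw [Nat.card_eq_fintype_card, ← h6]
    push_cast
    ring
  rw [h4, h5]
  simp only [Polynomial.eval_add, Polynomial.eval_pow, Polynomial.eval_sub, Polynomial.eval_X,
    Polynomial.eval_one]
  push_cast
  ring

end Parts

section Total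

variable {A B C J : Type} [Fintype A] [Fintype B] [Fintype C] [Fintype J] [DecidableEq A]
  [DecidableEq B] [DecidableEq C] [DecidableEq J]
  (α : J → Option A) (β : J → Option B) (γ : J → C)

/-- The sparse cubic polynomial. -/
def cub {κ : Type} [Field κ] (v : (A → κ) × (B → κ) × (C → κ)) : κ :=
  ∑ τ, hat v.1 (α τ) * hat v.2.1 (β τ) * v.2.2 (γ τ)

/-- The coordinates. -/
def coords (κ : Type) : κ × ((A → κ) × (B → κ) × (C → κ)) ≃ (Va A B C → κ) where
  toFun p := fun o => o.elim p.1 (Sum.elim p.2.1 (Sum.elim p.2.2.1 p.2.2.2))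
  invFun z := (z none, fun a => z (some (Sum.inl a)), fun b => z (some (Sum.inr (Sum.inl b))),
    fun c => z (some (Sum.inr (Sum.inr c))))
  left_inv _ := rfl
  right_inv z := by
    funext o
    rcases o with _ | a | b | c <;> rfl

/-- **The class number.** -/
theorem card_Kv_ent (S : Type) [Fintype S] [DecidableEq S] {κ : Type} [Field κ] [Finite κ] :
    (Nat.card (Kv (tens S (ent α β γ)) κ) : ℤ) =
      ((Nat.card κ : ℤ) - 1) * ((Nat.card κ : ℤ) ^ (Fintype.card A + Fintype.card B +
        Fintype.card C) + ((Nat.card κ : ℤ) ^ (2 * Fintype.card S) - 1) *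
          Nat.card {v : (A → κ) × (B → κ) × (C → κ) // 1 + cub α β γ v = 0}) +
      (PA α (Fintype.card S) * PA β (Fintype.card S) * PC γ (Fintype.card S)).eval
        (Nat.card κ : ℤ) := by
  classical
  have : Fintype κ := Fintype.ofFinite κ
  set s := Fintype.card S with hs
  let f : κ → ((A → κ) × (B → κ) × (C → κ)) → ℕ := fun w v =>
    (Nat.card (Kset w (fun τ => (α τ).elim w v.1) (fun τ => (β τ).elim w v.2.1)
      fun τ => v.2.2 (γ τ)) * Nat.card (Kset w (fun τ => (β τ).elim w v.2.1)
        (fun τ => (α τ).elim w v.1) fun τ => v.2.2 (γ τ))) ^ s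
  have h0 : (Nat.card (Kv (tens S (ent α β γ)) κ) : ℤ) = ∑ w, ∑ v, (f w v : ℤ) := by
    rw [card_Kv_tens, finsum_eq_sum_of_fintype, ← Equiv.sum_comp (coords κ), Fintype.sum_prod_type]
    push_cast
    refine sum_congr rfl fun w _ => sum_congr rfl fun v _ => ?_
    rw [card_KR, card_KL]
    have e1 : ∀ τ, coords κ (w, v) ((α τ).map Sum.inl) = (α τ).elim w v.1 := by
      intro τ
      cases α τ <;> rfl
    have e2 : ∀ τ, coords κ (w, v) ((β τ).map fun b => Sum.inr (Sum.inl b)) =
        (β τ).elim w v.2.1 := by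
      intro τ
      cases β τ <;> rfl
    simp only [e1, e2, f]
    push_cast
    rfl
  -- the part `w ≠ 0`
  have h1 : ∀ w : κ, w ≠ 0 → ∑ v, (f w v : ℤ) = (Nat.card κ : ℤ) ^ (Fintype.card A +
      Fintype.card B + Fintype.card C) + ((Nat.card κ : ℤ) ^ (2 * s) - 1) *
          Nat.card {v : (A → κ) × (B → κ) × (C → κ) // 1 + cub α β γ v = 0} := by
    intro w hw
    have h2 : ∀ v : (A → κ) × (B → κ) × (C → κ), (f w (Units.mk0 w hw • v) : ℤ) =
        if 1 + cub α β γ v = 0 then (Nat.card κ : ℤ) ^ (2 * s) else 1 := by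
      intro v
      have e1 : ∀ τ, (α τ).elim w (Units.mk0 w hw • v).1 = w * hat v.1 (α τ) := by
        intro τ
        cases α τ with
        | none => simp [hat]
        | some i => rfl
      have e2 : ∀ τ, (β τ).elim w (Units.mk0 w hw • v).2.1 = w * hat v.2.1 (β τ) := by
        intro τ
        cases β τ with
        | none => simp [hat]
        | some i => rfl
      have e3 : ∀ τ, (Units.mk0 w hw • v).2.2 (γ τ) = w * v.2.2 (γ τ) := fun τ => rfl
      simp only [f, e1, e2, e3]
      rw [card_Kset hw, card_Kset hw]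
      have e4 : w ^ 3 + ∑ τ, w * hat v.1 (α τ) * (w * hat v.2.1 (β τ)) * (w * v.2.2 (γ τ)) =
          w ^ 3 * (1 + cub α β γ v) := by
        rw [cub, mul_add, mul_one, mul_sum]
        congr 1
        exact sum_congr rfl fun τ _ => by ring
      have e5 : w ^ 3 + ∑ τ, w * hat v.2.1 (β τ) * (w * hat v.1 (α τ)) * (w * v.2.2 (γ τ)) =
          w ^ 3 * (1 + cub α β γ v) := by
        rw [cub, mul_add, mul_one, mul_sum]
        congr 1
        exact sum_congr rfl fun τ _ => by ring
      rw [e4, e5]
      have e6 : w ^ 3 * (1 + cub α β γ v) = 0 ↔ 1 + cub α β γ v = 0 := by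
        rw [mul_eq_zero]
        exact ⟨fun h => h.resolve_left (pow_ne_zero _ hw), Or.inr⟩
      simp only [e6]
      split_ifs
      · push_cast
        rw [← pow_two, ← pow_mul]
      · simp
    rw [← Equiv.sum_comp (MulAction.toPerm (Units.mk0 w hw))]
    simp only [MulAction.toPerm_apply]
    rw [sum_congr rfl fun v _ => h2 v, sum_ite, sum_const, sum_const, nsmul_eq_mul, nsmul_eq_mul]
    have h3 := card_filter_add_card_filter_not
      (s := (univ : Finset ((A → κ) × (B → κ) × (C → κ)))) fun v => 1 + cub α β γ v = 0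
    have h4 : (univ : Finset ((A → κ) × (B → κ) × (C → κ))).card =
        Fintype.card κ ^ (Fintype.card A + Fintype.card B + Fintype.card C) := by
      rw [card_univ, Fintype.card_prod, Fintype.card_prod, Fintype.card_fun, Fintype.card_fun,
        Fintype.card_fun, pow_add, pow_add, mul_assoc]
    rw [h4] at h3
    have h5 : Nat.card {v : (A → κ) × (B → κ) × (C → κ) // 1 + cub α β γ v = 0} =
        (univ.filter fun v : (A → κ) × (B → κ) × (C → κ) => 1 + cub α β γ v = 0).card := by
      rw [Nat.card_eq_fintype_card, Fintype.card_subtype]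
    have h6 := congrArg (fun t : ℕ => (t : ℤ)) h3
    push_cast at h6
    rw [h5, Nat.card_eq_fintype_card (α := κ), ← h6]
    ring
  -- the part `w = 0`
  have h7 : ∑ v, (f 0 v : ℤ) = (PA α s * PA β s * PC γ s).eval (Nat.card κ : ℤ) := by
    rw [Polynomial.eval_mul, Polynomial.eval_mul, ← sum_PA α s, ← sum_PA β s, ← sum_PC γ s,
      Fintype.sum_prod_type, mul_assoc, sum_mul]
    refine sum_congr rfl fun x _ => ?_
    rw [Fintype.sum_prod_type, sum_mul, mul_sum]
    refine sum_congr rfl fun y _ => ?_
    rw [mul_sum, mul_sum]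
    refine sum_congr rfl fun z _ => ?_
    simp only [f]
    rw [card_Kset_zero, card_Kset_zero]
    push_cast
    ring
  rw [h0, ← add_sum_erase univ _ (mem_univ (0 : κ)), h7, add_comm]
  congr 1
  rw [sum_congr rfl fun w hw => h1 w (ne_of_mem_erase hw), sum_const, nsmul_eq_mul,
    card_erase_of_mem (mem_univ _), card_univ, Nat.card_eq_fintype_card (α := κ)]
  congr 1
  have h8 : 1 ≤ Fintype.card κ := Fintype.card_pos
  push_cast [h8]
  ring

end Total

end Pool.Agent.KS6_91.CN
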