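import Pool.Agent.KS6_91.CN.Enc
import Pool.Agent.KS6_57.OR.Trans

/-!
# The L-functions of the numbers `P(q) + q ^ c (q ^ k - 1) (q ^ (2 t) - 1) #X`
-/

set_option autoImplicit false

namespace Pool.Agent.KS6_91.CN

open Finset MvPolynomial Pool.Agent.KS6_3.B2 Pool.Agent.KS6_57.OR

/-- The numbers `N p k` have eigenvalues of Frobenius for all primes `p ∉ S`, and the weights are not
negative. For the numbers of points of schemes of finite type over `ℤ` this is the case for `S = ∅`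
(Dwork, Deligne). -/
def Effective (S : Set Nat.Primes) (N : Nat.Primes → ℕ → ℂ) : Prop :=
  ∀ p, p ∉ S → ∃ μ : ℂ →₀ ℤ, IsFrob p (N p) μ ∧ ∀ α ∈ μ.support, 1 ≤ ‖α‖

/-- `L` is the L-function of weight `i` of the numbers `N p k` without the Euler factors for the primes
in `S`: it is the product of the Euler factors, and all weights are non-negative. -/
def IsLN (S : Set Nat.Primes) (N : Nat.Primes → ℕ → ℂ) (i : ℤ) (L : ℂ → ℂ) : Prop :=
  IsL S N i L ∧ Effective S N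

section Basic

variable {S : Set Nat.Primes} {N N' : Nat.Primes → ℕ → ℂ} {i : ℤ} {L L' : ℂ → ℂ}

/-- Only the values in a half-plane matter. -/
lemma isL_of_eq (h : IsL S N i L) {τ : ℝ} (hL : ∀ s : ℂ, τ < s.re → L' s = L s) :
    IsL S N i L' := by
  obtain ⟨μ, hμ, σ, hσ⟩ := h
  refine ⟨μ, hμ, max σ τ, fun s hs => ?_⟩
  rw [hL s ((le_max_right _ _).trans_lt hs)]
  exact hσ s ((le_max_left _ _).trans_lt hs)

lemma Effective.congr (h : Effective S N)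
    (hN : ∀ p, p ∉ S → ∀ k, 1 ≤ k → N' p k = N p k) : Effective S N' := by
  intro p hp
  obtain ⟨μ, h1, h2⟩ := h p hp
  exact ⟨μ, isFrob_congr h1 (hN p hp), h2⟩

lemma Effective.add (h : Effective S N) (h' : Effective S N') :
    Effective S fun p k => N p k + N' p k := by
  classical
  intro p hp
  obtain ⟨μ, h1, h2⟩ := h p hp
  obtain ⟨ν, h3, h4⟩ := h' p hp
  refine ⟨μ + ν, isFrob_add h1 h3, fun α hα => ?_⟩
  rcases mem_union.mp (Finsupp.support_add hα) with h5 | h5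
  · exact h2 α h5
  · exact h4 α h5

lemma Effective.neg (h : Effective S N) : Effective S fun p k => - N p k := by
  intro p hp
  obtain ⟨μ, h1, h2⟩ := h p hp
  refine ⟨-μ, isFrob_neg h1, fun α hα => ?_⟩
  rw [Finsupp.support_neg] at hα
  exact h2 α hα

lemma Effective.scale (h : Effective S N) (c : ℕ) :
    Effective S fun p k => (((p : ℕ) : ℂ) ^ (c : ℤ)) ^ k * N p k := by
  intro p hp
  obtain ⟨μ, h1, h2⟩ := h p hp
  refine ⟨_, isFrob_scale p.2 (c : ℤ) h1, fun β hβ => ?_⟩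
  classical
  obtain ⟨α, hα, rfl⟩ := mem_image.mp (Finsupp.mapDomain_support hβ)
  rw [norm_mul, zpow_natCast, norm_pow, Complex.norm_natCast]
  have h3 : (1 : ℝ) ≤ ((p : ℕ) : ℝ) ^ c := one_le_pow₀ (by exact_mod_cast p.2.one_lt.le)
  exact one_le_mul_of_one_le_of_one_le h3 (h2 α hα)

lemma effective_poly (S : Set Nat.Primes) (P : Polynomial ℤ) :
    Effective S fun p k => ((P.eval (((p : ℕ) : ℤ) ^ k) : ℤ) : ℂ) := by
  intro p _
  refine ⟨_, isFrob_poly p P, fun β hβ => ?_⟩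
  classical
  obtain ⟨j, hj, h1⟩ := Finsupp.mem_support_finsetSum β hβ
  rw [mem_singleton.mp (Finsupp.support_single_subset h1), norm_pow, Complex.norm_natCast]
  exact one_le_pow₀ (by exact_mod_cast p.2.one_lt.le)

/-- The L-functions of negative weight are trivial. -/
lemma isL_neg (h : Effective S N) (hi : i < 0) : IsL S N i fun _ => 1 := by
  classical
  choose! μ h1 h2 using h
  refine ⟨μ, h1, 0, fun s _ => ⟨one_ne_zero, ?_⟩⟩
  have h3 : (fun p : {p : Nat.Primes // p ∉ S} => eulerFactor (μ p) p i s) = fun _ => 1 := by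
    funext p
    unfold eulerFactor
    rw [filter_false_of_mem, prod_empty]
    intro α hα h4
    have h5 := h2 p.1 p.2 α hα
    have h6 : (1 : ℝ) ≤ ‖α‖ ^ 2 := one_le_pow₀ h5
    have hp1 : (1 : ℝ) < ((p : Nat.Primes) : ℕ) := by exact_mod_cast p.1.2.one_lt
    have h7 : (((p : Nat.Primes) : ℕ) : ℝ) ^ i < 1 := zpow_lt_one_of_neg₀ hp1 hi
    rw [h4] at h6
    exact absurd h6 (not_le.mpr h7)
  rw [h3]
  exact hasProd_one

/-- The L-functions of odd weight of polynomials are trivial. -/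
lemma isL_poly_odd (S : Set Nat.Primes) (P : Polynomial ℤ) {w : ℤ} (hw : Odd w) :
    IsL S (fun p k => ((P.eval (((p : ℕ) : ℤ) ^ k) : ℤ) : ℂ)) w fun _ => 1 := by
  classical
  refine ⟨fun p => ∑ j ∈ P.support, Finsupp.single (((p : ℕ) : ℂ) ^ j) (P.coeff j),
    fun p _ => isFrob_poly p P, 0, fun s _ => ⟨one_ne_zero, ?_⟩⟩
  have h3 : (fun p : {p : Nat.Primes // p ∉ S} => eulerFactor (∑ j ∈ P.support,
      Finsupp.single ((((p : Nat.Primes) : ℕ) : ℂ) ^ j) (P.coeff j)) p w s) = fun _ => 1 := by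
    funext p
    unfold eulerFactor
    rw [filter_false_of_mem, prod_empty]
    intro α hα h4
    obtain ⟨j, hj, h1⟩ := Finsupp.mem_support_finsetSum α hα
    rw [mem_singleton.mp (Finsupp.support_single_subset h1)] at h4
    have h5 := norm_sq_pow ((p : Nat.Primes) : ℕ) (j : ℤ)
    rw [zpow_natCast] at h5
    rw [h5] at h4
    have hp1 : (1 : ℝ) < ((p : Nat.Primes) : ℕ) := by exact_mod_cast p.1.2.one_lt
    have h6 := zpow_right_injective₀ (by linarith) hp1.ne' h4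
    rw [← h6] at hw
    exact (Int.not_even_iff_odd.mpr hw) (even_two_mul _)
  rw [h3]
  exact hasProd_one

end Basic

section Transfer

variable {S : Set Nat.Primes} {X Y A : Nat.Primes → ℕ → ℂ} {i : ℤ} {c k t : ℕ}

/-- The relation between the numbers. -/
def Rel (c k t : ℕ) (A X Y : Nat.Primes → ℕ → ℂ) : Prop :=
  ∀ (p : Nat.Primes) (l : ℕ), 1 ≤ l → Y p l = A p l + (((p : ℕ) : ℂ) ^ (c : ℤ)) ^ l *
    (X p l - (((p : ℕ) : ℂ) ^ (k : ℤ)) ^ l * X p l - (((p : ℕ) : ℂ) ^ ((2 * t : ℕ) : ℤ)) ^ l * X p l +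
      (((p : ℕ) : ℂ) ^ ((k + 2 * t : ℕ) : ℤ)) ^ l * X p l)

lemma isL_trivial (hX : Effective S X) {c' : ℕ} (hi : i < 2 * (c' : ℤ)) :
    IsL S (fun p l => (((p : ℕ) : ℂ) ^ (c' : ℤ)) ^ l * X p l) i fun _ => 1 := by
  have h1 := isL_neg (i := i - 2 * (c' : ℤ)) hX (by omega)
  have h2 := isL_scale (N' := fun p l => (((p : ℕ) : ℂ) ^ (c' : ℤ)) ^ l * X p l) (c' : ℤ) h1
    fun p _ l _ => rfl
  rwa [sub_add_cancel] at h2

theorem transfer (hR : Rel c k t A X Y) (hk : i < 2 * (k : ℤ)) (ht : i < 4 * (t : ℤ))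
    {L Z : ℂ → ℂ} (hL : IsLN S X i L) (hA : Effective S A) (hZ : IsL S A (i + 2 * c) Z) :
    IsLN S Y (i + 2 * c) fun s => Z s * L (s - c) := by
  obtain ⟨hL, hX⟩ := hL
  have h1 := isL_trivial (i := i) (c' := k) hX hk
  have h2 := isL_trivial (i := i) (c' := 2 * t) hX (by push_cast; omega)
  have h3 := isL_trivial (i := i) (c' := k + 2 * t) hX (by push_cast; omega)
  have h4 : IsL S (fun p l => X p l - (((p : ℕ) : ℂ) ^ (k : ℤ)) ^ l * X p l -
      (((p : ℕ) : ℂ) ^ ((2 * t : ℕ) : ℤ)) ^ l * X p l +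
      (((p : ℕ) : ℂ) ^ ((k + 2 * t : ℕ) : ℤ)) ^ l * X p l) i L := by
    have h5 := isL_mul (N'' := fun p l => X p l + - ((((p : ℕ) : ℂ) ^ (k : ℤ)) ^ l * X p l)) hL
      (isL_inv h1) fun p _ l _ => rfl
    have h6 := isL_mul (N'' := fun p l => X p l + - ((((p : ℕ) : ℂ) ^ (k : ℤ)) ^ l * X p l) +
      - ((((p : ℕ) : ℂ) ^ ((2 * t : ℕ) : ℤ)) ^ l * X p l)) h5 (isL_inv h2) fun p _ l _ => rfl
    have h7 := isL_mul (N'' := fun p l => X p l - (((p : ℕ) : ℂ) ^ (k : ℤ)) ^ l * X p l -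
      (((p : ℕ) : ℂ) ^ ((2 * t : ℕ) : ℤ)) ^ l * X p l +
      (((p : ℕ) : ℂ) ^ ((k + 2 * t : ℕ) : ℤ)) ^ l * X p l) h6 h3 fun p _ l _ => by ring
    simpa using h7
  have h8 := isL_scale (N' := fun p l => (((p : ℕ) : ℂ) ^ (c : ℤ)) ^ l *
    (X p l - (((p : ℕ) : ℂ) ^ (k : ℤ)) ^ l * X p l - (((p : ℕ) : ℂ) ^ ((2 * t : ℕ) : ℤ)) ^ l * X p l +
      (((p : ℕ) : ℂ) ^ ((k + 2 * t : ℕ) : ℤ)) ^ l * X p l)) (c : ℤ) h4 fun p _ l _ => rfl
  have h9 := isL_mul (N'' := Y) hZ h8 fun p _ l hl => hR p l hl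
  refine ⟨by simpa using h9, ?_⟩
  have e4 : Effective S (fun p l => X p l + - ((((p : ℕ) : ℂ) ^ (k : ℤ)) ^ l * X p l) +
      - ((((p : ℕ) : ℂ) ^ ((2 * t : ℕ) : ℤ)) ^ l * X p l) +
      (((p : ℕ) : ℂ) ^ ((k + 2 * t : ℕ) : ℤ)) ^ l * X p l) :=
    ((hX.add (hX.scale k).neg).add (hX.scale (2 * t)).neg).add (hX.scale (k + 2 * t))
  refine (hA.add (e4.scale c)).congr fun p _ l hl => ?_
  rw [hR p l hl]
  ring

/-- If the L-function of `X` is defined, then the relation between the L-functions is an equivalence. -/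
theorem transfer_iff (hR : Rel c k t A X Y) (hk : i < 2 * (k : ℤ)) (ht : i < 4 * (t : ℤ))
    {Z : ℂ → ℂ} (hA : Effective S A) (hZ : IsL S A (i + 2 * c) Z)
    (hX : ∃ L₀, IsLN S X i L₀) (L : ℂ → ℂ) :
    IsLN S X i L ↔ IsLN S Y (i + 2 * c) fun s => Z s * L (s - c) := by
  refine ⟨fun h => transfer hR hk ht h hA hZ, fun h => ?_⟩
  obtain ⟨L₀, h0⟩ := hX
  have h1 := transfer hR hk ht h0 hA hZ
  obtain ⟨σ, hσ⟩ := isL_unique h.1 h1.1
  obtain ⟨μZ, hμZ, τ, hτ⟩ := hZ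
  refine ⟨isL_of_eq h0.1 (τ := max σ τ - c) fun s hs => ?_, h0.2⟩
  have hs1 : max σ τ < (s + (c : ℂ)).re := by
    rw [Complex.add_re, Complex.natCast_re]
    linarith
  have h2 := hσ _ ((le_max_left _ _).trans_lt hs1)
  have h3 := (hτ _ ((le_max_right _ _).trans_lt hs1)).1
  simp only [add_sub_cancel_right] at h2
  exact mul_left_cancel₀ h3 h2

lemma mero_shift {F : ℂ → ℂ} (hF : MeromorphicOn F Set.univ) (t : ℂ) :
    MeromorphicOn (fun s => F (s + t)) Set.univ := fun s _ =>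
  (hF (s + t) (Set.mem_univ _)).comp_analyticAt (f := F) (g := fun s => s + t)
    (analyticAt_id.add analyticAt_const)

/-- Meromorphic continuation. -/
theorem transfer_mero (hR : Rel c k t A X Y) (hk : i < 2 * (k : ℤ)) (ht : i < 4 * (t : ℤ))
    {Z : ℂ → ℂ} (hA : Effective S A) (hZ : IsL S A (i + 2 * c) Z)
    (hZm : MeromorphicOn Z Set.univ) (hX : ∃ L₀, IsLN S X i L₀) :
    (∃ F : ℂ → ℂ, MeromorphicOn F Set.univ ∧ IsLN S X i F) ↔
      ∃ F : ℂ → ℂ, MeromorphicOn F Set.univ ∧ IsLN S Y (i + 2 * c) F := by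
  constructor
  · rintro ⟨F, hF, h⟩
    refine ⟨_, hZm.mul ?_, transfer hR hk ht h hA hZ⟩
    have h1 := mero_shift hF (-(c : ℂ))
    simpa only [← sub_eq_add_neg] using h1
  · rintro ⟨F, hF, h⟩
    refine ⟨fun s => (Z (s + c))⁻¹ * F (s + c), (mero_shift hZm c).inv.mul (mero_shift hF c), ?_⟩
    rw [transfer_iff hR hk ht hA hZ hX]
    obtain ⟨μZ, hμZ, τ, hτ⟩ := hZ
    refine ⟨isL_of_eq h.1 (τ := τ) fun s hs => ?_, h.2⟩
    rw [sub_add_cancel, ← mul_assoc, mul_inv_cancel₀ (hτ s hs).1, one_mul]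

/-- Holomorphic continuation. -/
theorem transfer_entire (hR : Rel c k t A X Y) (hk : i < 2 * (k : ℤ)) (ht : i < 4 * (t : ℤ))
    (hA : Effective S A) (hZ : IsL S A (i + 2 * c) fun _ => 1) (hX : ∃ L₀, IsLN S X i L₀) :
    (∃ F : ℂ → ℂ, Differentiable ℂ F ∧ IsLN S X i F) ↔
      ∃ F : ℂ → ℂ, Differentiable ℂ F ∧ IsLN S Y (i + 2 * c) F := by
  constructor
  · rintro ⟨F, hF, h⟩
    refine ⟨fun s => F (s - c), hF.comp (differentiable_id.sub_const _), ?_⟩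
    simpa using transfer hR hk ht h hA hZ
  · rintro ⟨F, hF, h⟩
    refine ⟨fun s => F (s + c), hF.comp (differentiable_id.add_const _), ?_⟩
    rw [transfer_iff hR hk ht hA hZ hX]
    simpa using h

end Transfer

/-- The relation of the eigenvalues of Frobenius. -/
theorem frob_rel {p : Nat.Primes} {X Y : ℕ → ℂ} {P : Polynomial ℤ} {c k t : ℕ}
    (hR : ∀ l, 1 ≤ l → Y l = ((P.eval (((p : ℕ) : ℤ) ^ l) : ℤ) : ℂ) +
      (((p : ℕ) : ℂ) ^ (c : ℤ)) ^ l * (X l - (((p : ℕ) : ℂ) ^ (k : ℤ)) ^ l * X l -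
        (((p : ℕ) : ℂ) ^ ((2 * t : ℕ) : ℤ)) ^ l * X l +
          (((p : ℕ) : ℂ) ^ ((k + 2 * t : ℕ) : ℤ)) ^ l * X l))
    {μ : ℂ →₀ ℤ} (hμ : IsFrob p X μ) (h1 : ∀ α ∈ μ.support, 1 ≤ ‖α‖) :
    ∃ ν : ℂ →₀ ℤ, IsFrob p Y ν ∧ (∀ α ∈ ν.support, 1 ≤ ‖α‖) ∧
      ∀ α : ℂ, ‖α‖ < ((p : ℕ) : ℝ) ^ k → ‖α‖ < ((p : ℕ) : ℝ) ^ (2 * t) →
        ν (((p : ℕ) : ℂ) ^ c * α) = μ α + ∑ j ∈ P.support,
          if ((p : ℕ) : ℂ) ^ j = ((p : ℕ) : ℂ) ^ c * α then P.coeff j else 0 := by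
  classical
  have hp0 : ((p : ℕ) : ℂ) ≠ 0 := Nat.cast_ne_zero.mpr p.2.ne_zero
  have hp1 : (1 : ℝ) ≤ ((p : ℕ) : ℝ) := by exact_mod_cast p.2.one_lt.le
  have hpp : (0 : ℝ) < ((p : ℕ) : ℝ) := by linarith
  let sh : ℕ → (ℂ →₀ ℤ) := fun d => μ.mapDomain fun α => ((p : ℕ) : ℂ) ^ (d : ℤ) * α
  let π : ℂ →₀ ℤ := ∑ j ∈ P.support, Finsupp.single (((p : ℕ) : ℂ) ^ j) (P.coeff j)
  have hsh : ∀ d : ℕ, IsFrob p (fun l => (((p : ℕ) : ℂ) ^ (d : ℤ)) ^ l * X l) (sh d) := fun d =>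
    isFrob_scale p.2 (d : ℤ) hμ
  have hshs : ∀ d : ℕ, ∀ β ∈ (sh d).support, ((p : ℕ) : ℝ) ^ d ≤ ‖β‖ := by
    intro d β hβ
    obtain ⟨α, hα, rfl⟩ := mem_image.mp (Finsupp.mapDomain_support hβ)
    rw [norm_mul, zpow_natCast, norm_pow, Complex.norm_natCast]
    exact le_mul_of_one_le_right (pow_nonneg hpp.le _) (h1 α hα)
  let ν : ℂ →₀ ℤ := π + (sh c + - sh (c + k) + - sh (c + 2 * t) + sh (c + (k + 2 * t)))
  refine ⟨ν, ?_, ?_, ?_⟩
  · refine isFrob_congr (isFrob_add (isFrob_poly p P) (isFrob_add (isFrob_add (isFrob_add (hsh c)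
      (isFrob_neg (hsh (c + k)))) (isFrob_neg (hsh (c + 2 * t)))) (hsh (c + (k + 2 * t)))))
      fun l hl => ?_
    rw [hR l hl]
    push_cast
    simp only [zpow_add₀ hp0, mul_pow]
    ring
  · intro α hα
    have hd : ∀ d : ℕ, ∀ β ∈ (sh d).support, 1 ≤ ‖β‖ := fun d β hβ =>
      (one_le_pow₀ hp1).trans (hshs d β hβ)
    rcases mem_union.mp (Finsupp.support_add hα) with h | h
    · obtain ⟨j, hj, h2⟩ := Finsupp.mem_support_finsetSum α h
      rw [mem_singleton.mp (Finsupp.support_single_subset h2), norm_pow, Complex.norm_natCast]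
      exact one_le_pow₀ hp1
    rcases mem_union.mp (Finsupp.support_add h) with h | h
    · rcases mem_union.mp (Finsupp.support_add h) with h | h
      · rcases mem_union.mp (Finsupp.support_add h) with h | h
        · exact hd _ _ h
        · rw [Finsupp.support_neg] at h
          exact hd _ _ h
      · rw [Finsupp.support_neg] at h
        exact hd _ _ h
    · exact hd _ _ h
  · intro α hα hα'
    have h2 : sh c (((p : ℕ) : ℂ) ^ c * α) = μ α := by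
      have h3 : ((p : ℕ) : ℂ) ^ c * α = (fun α : ℂ => ((p : ℕ) : ℂ) ^ (c : ℤ) * α) α := by
        simp only [zpow_natCast]
      rw [h3]
      exact Finsupp.mapDomain_apply (mul_inj p.2 (c : ℤ)) μ α
    have h3 : ∀ d : ℕ, ‖α‖ < ((p : ℕ) : ℝ) ^ d → sh (c + d) (((p : ℕ) : ℂ) ^ c * α) = 0 := by
      intro d hd
      rw [← Finsupp.notMem_support_iff]
      intro h4
      have h5 := hshs _ _ h4
      rw [norm_mul, norm_pow, Complex.norm_natCast, pow_add] at h5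
      exact absurd (le_of_mul_le_mul_left h5 (pow_pos hpp c)) (not_le.mpr hd)
    have h4 : ‖α‖ < ((p : ℕ) : ℝ) ^ (k + 2 * t) := hα.trans_le (pow_le_pow_right₀ hp1 (by omega))
    simp only [ν, Finsupp.add_apply, Finsupp.neg_apply, h2, h3 k hα, h3 _ hα', h3 _ h4, π,
      Finsupp.finsetSum_apply, Finsupp.single_apply]
    ring

end Pool.Agent.KS6_91.CN
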